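import Pool.Agent.T6.H33.BL.Defs

/-! # Embeddings whose normal bundle is a combination of powers of the polarisation -/

set_option autoImplicit false

namespace Pool.Agent.T6.H33.BL.Bundles

variable {P : Pol} {b : Bundles P}

theorem twist_add (i j : ℤ) : b.twist (i + j) = b.twist i * b.twist j := by
  unfold twist
  rw [zpow_add, Units.val_mul]

theorem twist_zero : b.twist 0 = 1 := by
  unfold twist
  rw [zpow_zero, Units.val_one]

theorem twist_natCast (k : ℕ) : b.twist k = b.twist 1 ^ k := by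
  unfold twist
  rw [zpow_natCast, zpow_one, Units.val_pow_eq_pow_val]

theorem IsVector.rank_twist (h : b.IsVector) (k : ℕ) : b.rank (b.twist k) = 1 := by
  rw [twist_natCast, map_pow, h.rank_h, one_pow]

theorem IsVector.rank_twist' (h : b.IsVector) (j : ℤ) : b.rank (b.twist j) = 1 := by
  rcases Int.eq_nat_or_neg j with ⟨k, rfl | rfl⟩
  · exact h.rank_twist k
  · have h1 : b.twist (-k) * b.twist k = 1 := by
      rw [← twist_add, neg_add_cancel, twist_zero]
    have h2 := congrArg b.rank h1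
    rw [map_mul, h.rank_twist, mul_one, map_one] at h2
    exact h2

/-- The embedding with normal bundle `s + t h^j` for which the restriction of an ample line bundle is a power of `h`. -/
theorem exists_ambient (hv : b.IsVector) (he : b.HasEmbeddings) :
    ∃ (τ : b.K) (D : ℕ) (B : Subsemiring b.K) (s t : ℕ) (j : ℤ), 0 < D ∧ b.ambient τ (b.h ^ D) B ∧
      τ - b.tan = s + t * b.twist j ∧ 2 ≤ s + t := by
  obtain ⟨N, d, hd, B₀, h0, hB0⟩ := he.space
  set τ₀ : b.K := (N + 1) * b.twist d - 1 with hτ₀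
  set ν : b.K := τ₀ - b.tan with hν
  have hνb : ν ∈ b.vb := he.normal _ _ _ h0
  obtain ⟨k₀, hk₀⟩ := hv.serre ν hνb
  obtain ⟨k₁, hk₁⟩ := hv.serre (b.dual ν) (hv.dual_vb ν hνb)
  -- the twist
  set k₂ : ℕ := max k₀ k₁ with hk₂
  have hkd : k₂ ≤ d * k₂ := Nat.le_mul_of_pos_left _ hd
  obtain ⟨R₀, hR₀⟩ := hk₀ (d * k₂) ((le_max_left _ _).trans hkd)
  obtain ⟨R₁, hR₁⟩ := hk₁ (d * k₂) ((le_max_right _ _).trans hkd)
  set R : ℕ := max 2 (max R₀ R₁) with hR
  have g0 := hR₀ R ((le_max_left _ _).trans (le_max_right _ _))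
  have g1 := hR₁ R ((le_max_right _ _).trans (le_max_right _ _))
  set k : ℤ := ((d * k₂ : ℕ) : ℤ) with hk
  set E : b.K := ν * b.twist k with hE
  set E' : b.K := b.dual ν * b.twist k with hE'
  obtain ⟨B₁, hB₁, hEB₁, hSB₁, h1⟩ := he.grassmannian _ _ _ _ _ h0 g0
  obtain ⟨B₂, hB₂, hEB₂, hSB₂, h2⟩ := he.grassmannian _ _ _ _ _ h1 g1
  -- the vector bundle on the ambient space
  have hk2 : b.twist (-k) ∈ B₂ := by
    refine hB₂ (hB₁ ?_)
    have h3 := hB0 (-(k₂ : ℤ))
    have e : (d : ℤ) * -(k₂ : ℤ) = -k := by rw [hk]; push_cast; ring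
    rwa [e] at h3
  have hRB : ((R : ℕ) : b.K) ∈ B₂ := natCast_mem B₂ R
  have hEB : E ∈ B₂ := hB₂ hEB₁
  have hSB : (R : b.K) - E ∈ B₂ := hB₂ hSB₁
  have hdE : b.dual E ∈ B₂ := he.dual_mem _ _ _ _ h2 hEB
  have hdE' : b.dual E' ∈ B₂ := he.dual_mem _ _ _ _ h2 hEB₂
  set F : b.K := (R - E) * b.twist (-k) + R * (R - E) + b.dual E * E + R * (R - E') + b.dual E' * E' with hF
  have hFB : F ∈ B₂ := by
    refine B₂.add_mem (B₂.add_mem (B₂.add_mem (B₂.add_mem ?_ ?_) ?_) ?_) ?_
    · exact B₂.mul_mem hSB hk2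
    · exact B₂.mul_mem hRB hSB
    · exact B₂.mul_mem hdE hEB
    · exact B₂.mul_mem hRB hSB₂
    · exact B₂.mul_mem hdE' hEB₂
  obtain ⟨a, ha, B₃, h3⟩ := he.projective _ _ _ _ h2 hFB
  have hEν : E * b.twist (-k) = ν := by
    rw [hE, mul_assoc, ← twist_add, add_neg_cancel, twist_zero, mul_one]
  -- the line bundle
  obtain ⟨ρ, hρ⟩ := Int.eq_ofNat_of_zero_le (hv.rank_vb ν hνb)
  have hp : b.h ^ d * b.det E * b.det E' = b.h ^ (d + 2 * (d * k₂) * ρ) := by
    rw [hE, hE', hv.det_twist, hv.det_twist, hv.det_dual, hv.rank_dual, hρ]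
    have e1 : b.h ^ d * (b.det ν * b.h ^ (k * (ρ : ℤ))) * ((b.det ν)⁻¹ * b.h ^ (k * (ρ : ℤ))) =
        b.h ^ d * (b.h ^ (k * (ρ : ℤ)) * b.h ^ (k * (ρ : ℤ))) := by
      rw [mul_assoc]
      congr 1
      rw [mul_mul_mul_comm, mul_inv_cancel, one_mul]
    rw [e1, ← zpow_add, ← zpow_natCast, ← zpow_natCast, ← zpow_add]
    congr 1
    rw [hk]
    push_cast
    ring
  refine ⟨τ₀ + b.dual (R - E) * E + b.dual (R - E') * E' + F, (d + 2 * (d * k₂) * ρ) * a, B₃, R * R + R * R, R, -k,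
    by positivity, ?_, ?_, ?_⟩
  · rw [pow_mul, ← hp]
    exact h3
  · have e2 : τ₀ + b.dual (R - E) * E + b.dual (R - E') * E' + F - b.tan =
        ν + (b.dual (R - E) * E + b.dual (R - E') * E' + F) := by
      rw [hν]
      ring
    rw [e2, map_sub, map_sub, map_natCast, hF]
    have e3 : ν + (((R : b.K) - b.dual E) * E + ((R : b.K) - b.dual E') * E' +
        ((R - E) * b.twist (-k) + R * (R - E) + b.dual E * E + R * (R - E') + b.dual E' * E')) =
        ν - E * b.twist (-k) + (R * R + R * R + R * b.twist (-k)) := by ring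
    rw [e3, hEν]
    push_cast
    ring
  · have : 2 ≤ R := le_max_left _ _
    nlinarith

section

variable {A : Type} [CommRing A] [Algebra ℚ A]

/-- the power series whose coefficients are rational multiples of the powers of `ℓ` -/
def Hom (l : A) (f : PowerSeries A) : Prop := ∃ γ : ℕ → ℚ, ∀ t, PowerSeries.coeff t f = γ t • l ^ t

theorem Hom.mul {l : A} {f g : PowerSeries A} (hf : Hom l f) (hg : Hom l g) : Hom l (f * g) := by
  obtain ⟨γ, hγ⟩ := hf
  obtain ⟨δ, hδ⟩ := hg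
  refine ⟨fun t => ∑ x ∈ Finset.HasAntidiagonal.antidiagonal t, γ x.1 * δ x.2, fun t => ?_⟩
  rw [PowerSeries.coeff_mul, Finset.sum_smul]
  refine Finset.sum_congr rfl fun x hx => ?_
  rw [Finset.HasAntidiagonal.mem_antidiagonal] at hx
  rw [hγ, hδ, ← hx, smul_mul_smul_comm, pow_add]

theorem Hom.one (l : A) : Hom l (1 : PowerSeries A) := by
  refine ⟨fun t => if t = 0 then 1 else 0, fun t => ?_⟩
  rw [PowerSeries.coeff_one]
  by_cases h : t = 0
  · simp [h]
  · simp [h]

theorem Hom.pow {l : A} {f : PowerSeries A} (hf : Hom l f) (n : ℕ) : Hom l (f ^ n) := by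
  induction n with
  | zero => rw [pow_zero]; exact Hom.one l
  | succ n ih => rw [pow_succ]; exact ih.mul hf

theorem Hom.line (l : A) (r : ℚ) : Hom l (1 + PowerSeries.C (r • l) * PowerSeries.X) := by
  refine ⟨fun t => if t = 0 then 1 else if t = 1 then r else 0, fun t => ?_⟩
  rw [map_add, PowerSeries.coeff_one]
  cases t with
  | zero => simp
  | succ t =>
    rw [PowerSeries.coeff_succ_mul_X, PowerSeries.coeff_C]
    by_cases ht : t = 0
    · subst ht
      simp
    · simp [ht]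

end

theorem IsChern.c₁_one (h : b.IsChern) : b.c₁ 1 = 0 := by
  have h1 := h.c₁_mul 1 1
  rw [mul_one] at h1
  exact left_eq_add.mp h1

theorem IsChern.c₁_pow (h : b.IsChern) (D : ℕ) : b.c₁ (b.h ^ D) = (D : ℚ) • b.c₁ b.h := by
  induction D with
  | zero => rw [pow_zero, h.c₁_one, Nat.cast_zero, zero_smul]
  | succ D ih => rw [pow_succ, h.c₁_mul, ih, Nat.cast_succ, add_smul, one_smul]

theorem IsChern.c₁_zpow (h : b.IsChern) (j : ℤ) : b.c₁ (b.h ^ j) = (j : ℚ) • b.c₁ b.h := by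
  rcases Int.eq_nat_or_neg j with ⟨k, rfl | rfl⟩
  · rw [zpow_natCast, h.c₁_pow]
    rfl
  · have h1 := h.c₁_mul (b.h ^ (-(k : ℤ))) (b.h ^ k)
    rw [← zpow_natCast, ← zpow_add, neg_add_cancel, zpow_zero, h.c₁_one, zpow_natCast, h.c₁_pow] at h1
    rw [eq_comm, add_eq_zero_iff_eq_neg] at h1
    rw [h1]
    push_cast
    rw [neg_smul]

theorem IsChern.c_nsmul (h : b.IsChern) (h0 : b.c 0 = 1) (n : ℕ) (u : b.K) : b.c (n * u) = b.c u ^ n := by
  induction n with
  | zero => rw [Nat.cast_zero, zero_mul, pow_zero, h0]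
  | succ n ih => rw [Nat.cast_succ, add_mul, one_mul, h.c_add, ih, pow_succ]

/-- The Chern classes of `s + t h^j` are multiples of the powers of the first Chern class of `h`. -/
theorem IsChern.hom (h : b.IsChern) (s t : ℕ) (j : ℤ) : Hom (b.c₁ b.h) (b.c (s + t * b.twist j)) := by
  have h1 : b.c 1 = 1 := by
    have h2 := h.c_twist 0
    rw [twist_zero, zpow_zero, h.c₁_one, map_zero, zero_mul, add_zero] at h2
    exact h2
  have h0 : b.c 0 = 1 := by
    have h2 := h.c_add 0 1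
    rw [zero_add, h1, mul_one] at h2
    exact h2.symm
  have h3 : (s : b.K) = s * 1 := (mul_one _).symm
  rw [h.c_add, h3, h.c_nsmul h0, h.c_nsmul h0, h1, one_pow, one_mul, h.c_twist, h.c₁_zpow]
  exact (Hom.line _ _).pow t

end Pool.Agent.T6.H33.BL.Bundles
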