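import Pool.Agent.T6.H33.BL.Middle
import Pool.Agent.T6.H33.BL.Embed

/-! # The Lefschetz operator on the blow-up -/

set_option autoImplicit false

namespace Pool.Agent.T6.H33.BL

/-- the coefficients of the iterates of the Lefschetz operator on the blow-up -/
def kap (α : ℚ) (γ : ℕ → ℚ) (m u : ℕ) : ℕ → ℕ → ℚ
  | 0, t => if t = u then 1 else 0
  | e + 1, 0 => α * kap α γ m u e 0 - γ (m + 1) * kap α γ m u e m
  | e + 1, t + 1 => α * kap α γ m u e (t + 1) + kap α γ m u e t - γ (m - t) * kap α γ m u e m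

theorem kap_eq_zero (α : ℚ) (γ : ℕ → ℚ) (m u : ℕ) : ∀ e t, t ≤ m → e + u < t → kap α γ m u e t = 0 := by
  intro e
  induction e with
  | zero =>
    intro t _ ht
    rw [kap, if_neg (by omega)]
  | succ e ih =>
    intro t htm ht
    cases t with
    | zero => omega
    | succ t =>
      rw [kap, ih (t + 1) htm (by omega), ih t (by omega) (by omega), ih m le_rfl (by omega)]
      ring

section

variable {M M' : Type} [AddCommGroup M] [Module ℚ M] [AddCommGroup M'] [Module ℚ M']
  {coef : ℕ → M' →ₗ[ℚ] M} {L : M →ₗ[ℚ] M} {L' : M' →ₗ[ℚ] M'} {m : ℕ} {α : ℚ} {γ : ℕ → ℚ}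
  (hL : ∀ t y, t ≤ m → coef t (L' y) =
    α • L (coef t y) + prev coef y t - γ (m + 1 - t) • (L ^ (m + 1 - t)) (coef m y))
include hL

theorem coef_pow (y : M') (e : ℕ) : ∀ t, t ≤ m → coef t ((L' ^ e) y) =
    ∑ u ∈ Finset.range (m + 1), kap α γ m u e t • (L ^ (e + u - t)) (coef u y) := by
  induction e with
  | zero =>
    intro t ht
    rw [Finset.sum_eq_single t]
    · rw [kap, if_pos rfl]
      simp
    · intro u _ hu
      rw [kap, if_neg (Ne.symm hu), zero_smul]
    · intro h
      exact absurd (Finset.mem_range.mpr (by omega)) h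
  | succ e ih =>
    intro t ht
    have hA : ∀ s u, s ≤ m → kap α γ m u e s • L ((L ^ (e + u - s)) (coef u y)) =
        kap α γ m u e s • (L ^ (e + 1 + u - s)) (coef u y) := by
      intro s u hs
      rw [← Module.End.mul_apply, ← pow_succ']
      by_cases h : e + u < s
      · rw [kap_eq_zero _ _ _ _ _ _ hs h, zero_smul, zero_smul]
      · have e1 : e + u - s + 1 = e + 1 + u - s := by omega
        rw [e1]
    have hB : ∀ s u, s ≤ m → kap α γ m u e m • (L ^ (m + 1 - s)) ((L ^ (e + u - m)) (coef u y)) =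
        kap α γ m u e m • (L ^ (e + 1 + u - s)) (coef u y) := by
      intro s u hs
      rw [← Module.End.mul_apply, ← pow_add]
      by_cases h : e + u < m
      · rw [kap_eq_zero _ _ _ _ _ _ le_rfl h, zero_smul, zero_smul]
      · have e1 : m + 1 - s + (e + u - m) = e + 1 + u - s := by omega
        rw [e1]
    rw [pow_succ', Module.End.mul_apply, hL _ _ ht, ih t ht, ih m le_rfl]
    cases t with
    | zero =>
      change α • L _ + 0 - _ = _
      rw [map_sum, map_sum, Finset.smul_sum, Finset.smul_sum, add_zero, ← Finset.sum_sub_distrib]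
      refine Finset.sum_congr rfl fun u _ => ?_
      rw [map_smul, map_smul, hA 0 u ht, hB 0 u ht, kap, Nat.sub_zero]
      module
    | succ t =>
      change α • L _ + coef t ((L' ^ e) y) - _ = _
      rw [ih t (by omega), map_sum, map_sum, Finset.smul_sum, Finset.smul_sum, ← Finset.sum_add_distrib,
        ← Finset.sum_sub_distrib]
      refine Finset.sum_congr rfl fun u _ => ?_
      have e2 : e + u - t = e + 1 + u - (t + 1) := by omega
      have e3 : m + 1 - (t + 1) = m - t := by omega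
      rw [map_smul, map_smul, hA (t + 1) u ht, hB (t + 1) u ht, kap, e2, e3]
      module

theorem coef_pow_single {y : M'} (h0 : ∀ t, 0 < t → coef t y = 0) (e : ℕ) {t : ℕ} (ht : t ≤ m) :
    coef t ((L' ^ e) y) = kap α γ m 0 e t • (L ^ (e - t)) (coef 0 y) := by
  rw [coef_pow hL y e t ht, Finset.sum_eq_single 0]
  · rw [add_zero]
  · intro u _ hu
    rw [h0 u (Nat.pos_of_ne_zero hu), map_zero, smul_zero]
  · intro h
    exact absurd (Finset.mem_range.mpr (by omega)) h

end

/-! ## positivity -/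

/-- the normalised coefficients -/
def kn (γ : ℕ → ℚ) (m : ℕ) (β : ℚ) : ℕ → ℕ → ℚ
  | 0, t => if t = 0 then 1 else 0
  | e + 1, 0 => kn γ m β e 0 - β ^ (m + 1) * γ (m + 1) * kn γ m β e m
  | e + 1, t + 1 => kn γ m β e (t + 1) + kn γ m β e t - β ^ (m - t) * γ (m - t) * kn γ m β e m

theorem kn_zero (γ : ℕ → ℚ) (m : ℕ) (e : ℕ) : ∀ t, t ≤ m → kn γ m 0 e t = (e.choose t : ℚ) := by
  induction e with
  | zero =>
    intro t _
    cases t with
    | zero => simp [kn]
    | succ t => simp [kn]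
  | succ e ih =>
    intro t ht
    cases t with
    | zero =>
      rw [kn, ih 0 ht]
      simp
    | succ t =>
      rw [kn, ih (t + 1) ht, ih t (by omega), zero_pow (by omega), Nat.choose_succ_succ]
      push_cast
      ring

theorem kn_continuous (γ : ℕ → ℚ) (m : ℕ) (e : ℕ) : ∀ t, Continuous fun β => kn γ m β e t := by
  induction e with
  | zero =>
    intro t
    simp only [kn]
    exact continuous_const
  | succ e ih =>
    intro t
    cases t with
    | zero =>
      simp only [kn]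
      have h1 := ih 0
      have h2 := ih m
      fun_prop
    | succ t =>
      simp only [kn]
      have h1 := ih (t + 1)
      have h2 := ih t
      have h3 := ih m
      fun_prop

theorem kap_eq_kn {α : ℚ} (hα : α ≠ 0) (γ : ℕ → ℚ) (m e : ℕ) :
    ∀ t, t ≤ m → kap α γ m 0 e t * α ^ t = α ^ e * kn γ m α⁻¹ e t := by
  induction e with
  | zero =>
    intro t _
    rw [kap, kn]
    by_cases h : t = 0
    · simp [h]
    · simp [h]
  | succ e ih =>
    intro t ht
    have hm := ih m le_rfl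
    have key : ∀ s, s ≤ m → kap α γ m 0 e m * α ^ s = α ^ (e + 1) * (α⁻¹ ^ (m + 1 - s) * kn γ m α⁻¹ e m) := by
      intro s hs
      have e1 : α ^ m = α ^ s * α ^ (m - s) := by rw [← pow_add]; congr 1; omega
      have e2 : m + 1 - s = (m - s) + 1 := by omega
      rw [e1] at hm
      rw [e2]
      have h3 : α ^ (m - s) ≠ 0 := pow_ne_zero _ hα
      generalize kn γ m α⁻¹ e m = q at hm ⊢
      rw [inv_pow, pow_succ α e, pow_succ α (m - s)]
      field_simp
      linear_combination hm
    cases t with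
    | zero =>
      rw [kap, kn]
      have h0 := ih 0 ht
      have h1 := key 0 ht
      rw [Nat.sub_zero] at h1
      rw [pow_zero, mul_one] at h0 h1 ⊢
      rw [pow_succ] at h1 ⊢
      linear_combination α * h0 - γ (m + 1) * h1
    | succ t =>
      rw [kap, kn]
      have h0 := ih (t + 1) ht
      have h1 := ih t (by omega)
      have h2 := key (t + 1) ht
      have e3 : m + 1 - (t + 1) = m - t := by omega
      rw [e3] at h2
      rw [pow_succ α e] at h2 ⊢
      rw [pow_succ α t] at h0 h2 ⊢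
      linear_combination α * h0 + α * h1 - γ (m - t) * h2

/-- For `α` large the coefficient is positive. -/
theorem exists_kap_pos (γ : ℕ → ℚ) {m e : ℕ} (he : m ≤ e) : ∃ α₀ : ℕ, 0 < α₀ ∧ ∀ α ≥ α₀, 0 < kap α γ m 0 e m := by
  have h1 : 0 < kn γ m 0 e m := by
    rw [kn_zero _ _ _ _ le_rfl]
    exact_mod_cast Nat.choose_pos he
  have h2 : ∀ᶠ β in nhds (0 : ℚ), 0 < kn γ m β e m := (kn_continuous γ m e m).continuousAt.eventually (lt_mem_nhds h1)
  have h3 : Filter.Tendsto (fun k : ℕ => ((k : ℚ))⁻¹) Filter.atTop (nhds 0) :=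
    tendsto_inv_atTop_zero.comp tendsto_natCast_atTop_atTop
  obtain ⟨α₀, h4⟩ := Filter.eventually_atTop.mp (h3.eventually h2)
  refine ⟨α₀ + 1, by omega, fun α hα => ?_⟩
  have hα0 : (0 : ℚ) < (α : ℚ) := by
    have : 0 < α := by omega
    exact_mod_cast this
  have h5 := kap_eq_kn hα0.ne' γ m e m le_rfl
  have h6 : 0 < kn γ m ((α : ℚ))⁻¹ e m := h4 α (by omega)
  have h7 : 0 < kap α γ m 0 e m * (α : ℚ) ^ m := by
    rw [h5]
    positivity
  exact (mul_pos_iff_of_pos_right (by positivity)).mp h7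

/-! ## descent from the blow-up -/

/-- The blow-up of an ambient space for which everything is a combination of powers of the polarisation. -/
structure Blow (P P' : Pol) (m : ℕ) (α : ℚ) (γ : ℕ → ℚ) where
  coef : ℕ → P'.M →ₗ[ℚ] P.M
  dim : P'.n = P.n + m + 2
  coordinates : IsCoordinates m coef
  degrees : HasDegrees 1 P.G P'.G coef
  L : ∀ t y, t ≤ m → coef t (P'.L y) = α • P.L (coef t y) + prev coef y t - γ (m + 1 - t) • (P.L ^ (m + 1 - t)) (coef m y)
  ht : ∀ y z, (∀ t, 0 < t → coef t y = 0) → P'.ht y z = - P.ht (coef 0 y) (coef m z)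

namespace Blow

variable {P P' : Pol} {m : ℕ} {α : ℚ} {γ : ℕ → ℚ} (e : Blow P P' m α γ)

theorem exists_zero {i : ℕ} {x : P.M} (hx : x ∈ P.G i) :
    ∃ y, y ∈ P'.G (i + 1) ∧ e.coef 0 y = x ∧ ∀ t, 0 < t → e.coef t y = 0 := by
  obtain ⟨y, hy⟩ := e.coordinates.surj (fun t => if t = 0 then x else 0) (fun t ht => if_neg (by omega))
  refine ⟨y, ?_, by rw [hy, if_pos rfl], fun t ht => by rw [hy, if_neg (by omega)]⟩
  rw [e.degrees]
  intro t
  rw [hy]
  constructor
  · intro ht
    by_cases h0 : t = 0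
    · rw [if_pos h0, h0]
      exact hx
    · rw [if_neg h0]
      exact Submodule.zero_mem _
  · intro ht
    rw [if_neg (by omega)]

theorem pow_eq_zero {r : ℕ} {x : P.M} (h0 : (P.L ^ r) x = 0) {y : P'.M} (h1 : e.coef 0 y = x)
    (h2 : ∀ t, 0 < t → e.coef t y = 0) : (P'.L ^ (r + m)) y = 0 := by
  refine e.coordinates.ext _ fun t => ?_
  by_cases ht : t ≤ m
  · rw [coef_pow_single e.L h2 _ ht, h1]
    have e1 : r + m - t = (m - t) + r := by omega
    rw [e1, pow_add, Module.End.mul_apply, h0, map_zero, smul_zero]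
  · exact e.coordinates.eq_zero _ _ (by omega)

include e in
theorem lefschetz (hP : P.IsLefschetzModule) (h : P'.Lefschetz) : P.Lefschetz := by
  intro i hi
  obtain ⟨r, hr⟩ : ∃ r, P.n + 1 = 2 * i + r := ⟨P.n + 1 - 2 * i, by omega⟩
  have e1 : P.n + 1 - 2 * i = r := by omega
  have e2 : P.n + 1 - i = i + r := by omega
  have hk := h (i + 1) (by rw [e.dim]; omega)
  have e3 : P'.n + 1 - 2 * (i + 1) = r + m := by rw [e.dim]; omega
  have e4 : P'.n + 1 - (i + 1) = i + r + m + 1 := by rw [e.dim]; omega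
  rw [e1, e2]
  rw [e3, e4] at hk
  refine ⟨fun x hx => hP.pow_mem hx _, fun x hx y hy hxy => ?_, fun w hw => ?_⟩
  · have h0 : (P.L ^ r) (x - y) = 0 := by rw [map_sub]; exact sub_eq_zero.mpr hxy
    obtain ⟨z, hz, hz0, hz1⟩ := e.exists_zero (Submodule.sub_mem _ hx hy)
    have h1 := e.pow_eq_zero h0 hz0 hz1
    have h3 : z = 0 := hk.injOn hz (Submodule.zero_mem _) (by rw [h1, map_zero])
    rw [h3, map_zero] at hz0
    exact sub_eq_zero.mp hz0.symm
  · obtain ⟨z, hz⟩ := e.coordinates.surj (fun t => if t = m then w else 0) (fun t ht => if_neg (by omega))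
    have hzm : z ∈ P'.G (i + r + m + 1) := by
      rw [e.degrees]
      intro t
      rw [hz]
      constructor
      · intro ht
        by_cases h0 : t = m
        · rw [if_pos h0, h0]
          have e5 : i + r + m + 1 - (1 + m) = i + r := by omega
          rw [e5]
          exact hw
        · rw [if_neg h0]
          exact Submodule.zero_mem _
      · intro ht
        rw [if_neg (by omega)]
    obtain ⟨y, hy, hyz⟩ := hk.surjOn hzm
    have hyz' : (P'.L ^ (r + m)) y = z := hyz
    have h1 := coef_pow e.L y (r + m) m le_rfl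
    rw [hyz', hz, if_pos rfl] at h1
    refine ⟨∑ u ∈ Finset.range (m + 1), kap α γ m u (r + m) m • (P.L ^ u) (e.coef u y), ?_, ?_⟩
    · refine Submodule.sum_mem _ fun u _ => Submodule.smul_mem _ _ ?_
      by_cases hu : u ≤ i
      · have h2 := ((e.degrees (i + 1) y).mp hy u).1 (by omega)
        have e5 : i + 1 - (1 + u) = i - u := by omega
        rw [e5] at h2
        have h3 := hP.pow_mem h2 u
        have e6 : i - u + u = i := by omega
        rwa [e6] at h3
      · have h2 := ((e.degrees (i + 1) y).mp hy u).2 (by omega)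
        rw [h2, map_zero]
        exact Submodule.zero_mem _
    · change (P.L ^ r) _ = w
      rw [h1, map_sum]
      refine Finset.sum_congr rfl fun u _ => ?_
      have e5 : r + m + u - m = r + u := by omega
      rw [map_smul, ← Module.End.mul_apply, ← pow_add, e5]

include e in
theorem hodgeIndex_at {i r : ℕ} (hr : P.n + 1 = 2 * i + r) (hk : 0 < kap α γ m 0 (r + m) m)
    (h : P'.HodgeIndex) {x : P.M} (hx : x ∈ P.G i) (hne : x ≠ 0) (h0 : (P.L ^ (r + 1)) x = 0) :
    0 < (-1) ^ i * P.ht x ((P.L ^ r) x) := by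
  obtain ⟨z, hz, hz0, hz1⟩ := e.exists_zero hx
  have h1 := e.pow_eq_zero h0 hz0 hz1
  have e1 : P'.n + 2 - 2 * (i + 1) = r + 1 + m := by rw [e.dim]; omega
  have e2 : P'.n + 1 - 2 * (i + 1) = r + m := by rw [e.dim]; omega
  have h2 := h (i + 1) z (by rw [e.dim]; omega) hz (fun h3 => hne (by rw [← hz0, h3, map_zero])) (by rw [e1, h1])
  rw [e2, e.ht _ _ hz1, hz0, coef_pow_single e.L hz1 _ le_rfl, hz0, Nat.add_sub_cancel, map_smul, Rat.smul_def] at h2
  have h3 : (0 : ℝ) < (kap α γ m 0 (r + m) m : ℚ) := by exact_mod_cast hk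
  have h4 : (-1 : ℝ) ^ (i + 1) * -((kap α γ m 0 (r + m) m : ℚ) * P.ht x ((P.L ^ r) x)) =
      (kap α γ m 0 (r + m) m : ℚ) * ((-1) ^ i * P.ht x ((P.L ^ r) x)) := by
    rw [pow_succ]
    ring
  rw [h4] at h2
  exact (mul_pos_iff_of_pos_left h3).mp h2

end Blow

/-! ## existence of the blow-up -/

namespace Bundles

variable {P : Pol} {b : Bundles P}

theorem IsAction.pow_smul (ha : b.IsAction) (k : ℕ) (x : P.M) : b.c₁ b.h ^ k • x = (P.L ^ k) x := by
  induction k with
  | zero => rw [pow_zero, pow_zero, one_smul]; rfl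
  | succ k ih => rw [pow_succ', mul_smul, ih, ha.c₁_h, pow_succ', Module.End.mul_apply]

theorem IsAction.rat_smul (ha : b.IsAction) (r : ℚ) (f : b.A) (x : P.M) : (r • f) • x = r • (f • x) := by
  rw [Algebra.smul_def, mul_smul, ha.smul_rat]

/-- the blow-up in terms of the powers of the Lefschetz operator -/
def BlowUp.toBlow (ha : b.IsAction) (hc : b.IsChern) {N : b.K} {D a m : ℕ} {P' : Pol} (e : b.BlowUp N (b.h ^ D) a m P')
    {γ : ℕ → ℚ} (hγ : ∀ t, PowerSeries.coeff t (b.c N) = γ t • b.c₁ b.h ^ t) : Blow P P' m ((a * D : ℕ) : ℚ) γ where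
  coef := e.coef
  dim := e.dim
  coordinates := e.coordinates
  degrees := e.degrees
  L := by
    intro t y ht
    rw [e.L t y ht, hγ, hc.c₁_pow, ha.rat_smul, ha.rat_smul, ha.c₁_h, ha.pow_smul, Nat.cast_mul, mul_smul,
      Nat.cast_smul_eq_nsmul ℚ a]
  ht := e.ht

end Bundles

/-- Every variety has blow-ups with rational generic fibre, with arbitrarily large `α`. -/
theorem IsGeometry.exists_blow {C Rat : Set Pol} (h : IsGeometry C Rat) {P : Pol} (hP : P ∈ C) :
    ∃ (m : ℕ) (γ : ℕ → ℚ), ∀ α₀ : ℕ, ∃ α ≥ α₀, ∃ P' ∈ Rat, Nonempty (Blow P P' m (α : ℚ) γ) := by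
  obtain ⟨b, ha, hc, hv, he, hb⟩ := h.blowUp P hP
  obtain ⟨τ, D, B, s, t, j, hD, h1, h2, h3⟩ := Bundles.exists_ambient hv he
  obtain ⟨γ, hγ⟩ := hc.hom s t j
  have h4 : b.rank (τ - b.tan) = ((s + t - 2 : ℕ) : ℤ) + 2 := by
    rw [h2, map_add, map_mul, map_natCast, map_natCast, hv.rank_twist', mul_one]
    omega
  obtain ⟨a₀, h5⟩ := hb τ _ B (s + t - 2) h1 h4
  refine ⟨s + t - 2, γ, fun α₀ => ?_⟩
  obtain ⟨P', hP', ⟨e⟩⟩ := h5 (max a₀ α₀) (le_max_left _ _)
  refine ⟨max a₀ α₀ * D, (le_max_right a₀ α₀).trans (Nat.le_mul_of_pos_right _ hD), P', hP', ⟨?_⟩⟩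
  rw [h2] at e
  exact e.toBlow ha hc hγ

/-- the question for all varieties is equivalent to the middle degree for rational varieties of even dimension -/
theorem lefschetz_iff {C Rat : Set Pol} (h : IsGeometry C Rat) :
    (∀ P ∈ C, P.Lefschetz) ↔ ∀ P ∈ Rat, P.MiddleLefschetz := by
  constructor
  · intro h1 P hP k hk
    have h2 := h1 P (h.subset hP) k (by omega)
    have e1 : P.n + 1 - 2 * k = 1 := by omega
    have e2 : P.n + 1 - k = k + 1 := by omega
    rw [e1, e2, pow_one] at h2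
    exact h2
  · intro h1
    have h2 : ∀ P ∈ Rat, P.Lefschetz := by
      intro P hP i hi
      by_cases h3 : 2 * i = P.n + 1
      · have e1 : P.n + 1 - 2 * i = 0 := by omega
        have e2 : P.n + 1 - i = i := by omega
        rw [e1, e2]
        exact Set.bijOn_id _
      · obtain ⟨P', hP', ⟨e⟩⟩ := h.product P hP (P.n - 2 * i)
        exact e.lefschetz (h.module P (h.subset hP)) (by omega) (h1 P' hP')
    intro P hP
    obtain ⟨m, γ, h3⟩ := h.exists_blow hP
    obtain ⟨α, _, P', hP', ⟨e⟩⟩ := h3 0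
    exact e.lefschetz (h.module P hP) (h2 P' hP')

theorem hodgeIndex_iff {C Rat : Set Pol} (h : IsGeometry C Rat) :
    (∀ P ∈ C, P.HodgeIndex) ↔ ∀ P ∈ Rat, P.MiddleIndex := by
  constructor
  · intro h1 P hP k x hk hx hne h0
    have e1 : P.n + 1 - 2 * k = 0 := by omega
    have e2 : P.n + 2 - 2 * k = 1 := by omega
    have h2 := h1 P (h.subset hP) k x (by omega) hx hne (by rw [e2, pow_one]; exact h0)
    rw [e1] at h2
    exact h2
  · intro h1
    have h2 : ∀ P ∈ Rat, P.HodgeIndex := by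
      intro P hP i x hi hx hne h0
      obtain ⟨P', hP', ⟨e⟩⟩ := h.product P hP (P.n + 1 - 2 * i)
      exact e.hodgeIndex (h.module P (h.subset hP)) (by omega) (h1 P' hP') hx hne h0
    intro P hP i x hi hx hne h0
    obtain ⟨r, hr⟩ : ∃ r, P.n + 1 = 2 * i + r := ⟨P.n + 1 - 2 * i, by omega⟩
    have e1 : P.n + 1 - 2 * i = r := by omega
    have e2 : P.n + 2 - 2 * i = r + 1 := by omega
    rw [e1]
    rw [e2] at h0
    obtain ⟨m, γ, h3⟩ := h.exists_blow hP
    obtain ⟨α₀, _, h4⟩ := exists_kap_pos γ (m := m) (e := r + m) (by omega)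
    obtain ⟨α, hα, P', hP', ⟨e⟩⟩ := h3 α₀
    exact e.hodgeIndex_at hr (h4 _ (by exact_mod_cast hα)) (h2 P' hP') hx hne h0

end Pool.Agent.T6.H33.BL
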