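import Pool.Agent.T6.H33.BL.Defs

/-! # Products with projective spaces: reduction to the middle degree -/

set_option autoImplicit false

namespace Pool.Agent.T6.H33.BL

namespace Pol.IsLefschetzModule

variable {P : Pol} (hP : P.IsLefschetzModule)
include hP

theorem pow_mem {i : ℕ} {x : P.M} (hx : x ∈ P.G i) (k : ℕ) : (P.L ^ k) x ∈ P.G (i + k) := by
  induction k with
  | zero => simpa using hx
  | succ k ih =>
    rw [pow_succ', Module.End.mul_apply]
    exact hP.L_mem _ _ ih

theorem pow_adjoint (x y : P.M) (a c : ℕ) : P.ht ((P.L ^ a) x) ((P.L ^ c) y) = P.ht x ((P.L ^ (a + c)) y) := by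
  induction a generalizing c with
  | zero => rw [zero_add]; rfl
  | succ a ih =>
    rw [pow_succ', Module.End.mul_apply, hP.adjoint, ← Module.End.mul_apply, ← pow_succ', ih]
    congr 3
    omega

end Pol.IsLefschetzModule

namespace ProductWithSpace

variable {P P' : Pol} {m : ℕ} (e : ProductWithSpace P P' m)

/-- the coordinates of the lift -/
def seq (P : Pol) (m : ℕ) (x : P.M) (t : ℕ) : P.M := if t ≤ m then ((-1 : ℚ) ^ t) • (P.L ^ (m - t)) x else 0

theorem exists_lift (x : P.M) : ∃ y, ∀ t, e.coef t y = seq P m x t :=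
  e.coordinates.surj _ fun t ht => if_neg (by omega)

theorem lift_mem (hP : P.IsLefschetzModule) {i : ℕ} {x : P.M} (hx : x ∈ P.G i) {y : P'.M} (hy : ∀ t, e.coef t y = seq P m x t) :
    y ∈ P'.G (i + m) := by
  rw [e.degrees]
  intro t
  rw [hy]
  unfold seq
  constructor
  · intro ht
    split_ifs with h
    · have h1 := hP.pow_mem hx (m - t)
      have e1 : i + m - (0 + t) = i + (m - t) := by omega
      rw [e1]
      exact Submodule.smul_mem _ _ h1
    · exact Submodule.zero_mem _
  · intro ht
    rw [if_neg (by omega)]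

theorem L_lift {x : P.M} (hx : (P.L ^ (m + 1)) x = 0) {y : P'.M} (hy : ∀ t, e.coef t y = seq P m x t) : P'.L y = 0 := by
  refine e.coordinates.ext _ fun t => ?_
  by_cases ht : t ≤ m
  · rw [e.L t y ht]
    cases t with
    | zero =>
      rw [hy]
      unfold seq
      rw [if_pos (by omega), pow_zero, one_smul, Nat.sub_zero, ← Module.End.mul_apply, ← pow_succ', hx]
      exact add_zero _
    | succ t =>
      change P.L (e.coef (t + 1) y) + e.coef t y = 0
      rw [hy, hy]
      unfold seq
      rw [if_pos ht, if_pos (by omega), map_smul, ← Module.End.mul_apply, ← pow_succ']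
      have e1 : m - (t + 1) + 1 = m - t := by omega
      rw [e1, pow_succ]
      module
  · exact e.coordinates.eq_zero _ _ (by omega)

theorem eq_zero_of_lift {x : P.M} {y : P'.M} (hy : ∀ t, e.coef t y = seq P m x t) (h0 : y = 0) : x = 0 := by
  have h1 := hy m
  rw [h0, map_zero] at h1
  unfold seq at h1
  rw [if_pos le_rfl, Nat.sub_self, pow_zero] at h1
  have h2 : (-1 : ℚ) ^ m ≠ 0 := pow_ne_zero _ (by norm_num)
  exact (smul_eq_zero.mp h1.symm).resolve_left h2

include e in
theorem lefschetz (hP : P.IsLefschetzModule) {i : ℕ} (hi : P.n = 2 * i + m) (h : P'.MiddleLefschetz) :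
    Set.BijOn (fun x => (P.L ^ (P.n + 1 - 2 * i)) x) (P.G i) (P.G (P.n + 1 - i)) := by
  have e1 : P.n + 1 - 2 * i = m + 1 := by omega
  have e2 : P.n + 1 - i = i + (m + 1) := by omega
  have hk := h (i + m) (by rw [e.dim, hi]; ring)
  rw [e1, e2]
  refine ⟨fun x hx => hP.pow_mem hx _, fun x hx y hy hxy => ?_, fun w hw => ?_⟩
  · have h0 : (P.L ^ (m + 1)) (x - y) = 0 := by rw [map_sub]; exact sub_eq_zero.mpr hxy
    obtain ⟨z, hz⟩ := e.exists_lift (x - y)
    have h1 := e.L_lift h0 hz
    have h2 := e.lift_mem hP (Submodule.sub_mem _ hx hy) hz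
    have h3 : z = 0 := hk.injOn h2 (Submodule.zero_mem _) (by rw [h1, map_zero])
    exact sub_eq_zero.mp (e.eq_zero_of_lift hz h3)
  · obtain ⟨z, hz⟩ := e.coordinates.surj (fun t => if t = 0 then w else 0) (fun t ht => if_neg (by omega))
    have hzm : z ∈ P'.G (i + m + 1) := by
      rw [e.degrees]
      intro t
      rw [hz]
      constructor
      · intro ht
        by_cases h0 : t = 0
        · rw [if_pos h0, h0]
          exact hw
        · rw [if_neg h0]
          exact Submodule.zero_mem _
      · intro ht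
        rw [if_neg (by omega)]
    obtain ⟨y, hy, hyz⟩ := hk.surjOn hzm
    have hyz' : P'.L y = z := hyz
    have hrec : ∀ t, t + 1 ≤ m → e.coef t y = -P.L (e.coef (t + 1) y) := by
      intro t ht
      have h1 := e.L (t + 1) y ht
      rw [hyz', hz, if_neg (by omega)] at h1
      exact eq_neg_of_add_eq_zero_right h1.symm
    have hind : ∀ u, u ≤ m → e.coef (m - u) y = ((-1 : ℚ) ^ u) • (P.L ^ u) (e.coef m y) := by
      intro u
      induction u with
      | zero => intro _; simp
      | succ u ih =>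
        intro hu
        rw [hrec (m - (u + 1)) (by omega)]
        have e3 : m - (u + 1) + 1 = m - u := by omega
        rw [e3, ih (by omega), map_smul, ← Module.End.mul_apply, ← pow_succ', pow_succ (-1 : ℚ)]
        module
    have h0 := hind m le_rfl
    rw [Nat.sub_self] at h0
    have h1 := e.L 0 y (by omega)
    rw [hyz', hz, if_pos rfl, h0, map_smul, ← Module.End.mul_apply, ← pow_succ'] at h1
    have h2 : e.coef m y ∈ P.G i := by
      have h3 := ((e.degrees (i + m) y).mp hy m).1 (by omega)
      have e4 : i + m - (0 + m) = i := by omega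
      rwa [e4] at h3
    refine ⟨((-1 : ℚ) ^ m) • e.coef m y, Submodule.smul_mem _ _ h2, ?_⟩
    change (P.L ^ (m + 1)) (((-1 : ℚ) ^ m) • e.coef m y) = w
    rw [map_smul, h1]
    exact (add_zero _).symm

include e in
theorem hodgeIndex (hP : P.IsLefschetzModule) {i : ℕ} (hi : P.n + 1 = 2 * i + m) (h : P'.MiddleIndex) {x : P.M}
    (hx : x ∈ P.G i) (hne : x ≠ 0) (h0 : (P.L ^ (P.n + 2 - 2 * i)) x = 0) :
    0 < (-1) ^ i * P.ht x ((P.L ^ (P.n + 1 - 2 * i)) x) := by
  have e1 : P.n + 1 - 2 * i = m := by omega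
  have e2 : P.n + 2 - 2 * i = m + 1 := by omega
  rw [e1]
  rw [e2] at h0
  obtain ⟨y, hy⟩ := e.exists_lift x
  have h1 := e.L_lift h0 hy
  have h2 := e.lift_mem hP hx hy
  have h3 := h (i + m) y (by rw [e.dim]; omega) h2 (fun h => hne (e.eq_zero_of_lift hy h)) h1
  have h4 : P'.ht y y = (m + 1) * ((-1) ^ m * P.ht x ((P.L ^ m) x)) := by
    rw [e.ht]
    have h5 : ∀ t ∈ Finset.range (m + 1), P.ht (e.coef t y) (e.coef (m - t) y) = (-1) ^ m * P.ht x ((P.L ^ m) x) := by
      intro t ht
      rw [Finset.mem_range] at ht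
      rw [hy, hy]
      unfold seq
      rw [if_pos (by omega), if_pos (by omega), map_smul, map_smul, LinearMap.smul_apply, hP.pow_adjoint, smul_smul,
        ← pow_add]
      have e3 : m - t + t = m := by omega
      have e4 : m - t + (m - (m - t)) = m := by omega
      rw [e3, e4, Rat.smul_def]
      push_cast
      rfl
    rw [Finset.sum_congr rfl h5, Finset.sum_const, Finset.card_range, nsmul_eq_mul]
    push_cast
    rfl
  rw [h4] at h3
  have h6 : (-1 : ℝ) ^ (i + m) * ((m + 1) * ((-1) ^ m * P.ht x ((P.L ^ m) x))) =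
      (m + 1) * ((-1) ^ i * P.ht x ((P.L ^ m) x)) := by
    rw [pow_add]
    have h7 : (-1 : ℝ) ^ m * (-1) ^ m = 1 := by rw [← pow_add, ← two_mul, pow_mul]; simp
    linear_combination (m + 1) * (-1) ^ i * P.ht x ((P.L ^ m) x) * h7
  rw [h6] at h3
  exact (mul_pos_iff_of_pos_left (by positivity)).mp h3

end ProductWithSpace

end Pool.Agent.T6.H33.BL
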