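import Pool.Agent.T6.H33.BL.CurveDefs
import Pool.Agent.T6.H33.BL.Middle

/-! # Products with pointed curves -/

set_option autoImplicit false

namespace Pool.Agent.T6.H33.BL

namespace ProductWithCurve

variable {P E P' : Pol} (e : ProductWithCurve P E P')

theorem c₀_pow (y : P'.M) (k : ℕ) : e.c₀ ((P'.L ^ k) y) = (P.L ^ k) (e.c₀ y) := by
  induction k with
  | zero => rfl
  | succ k ih => rw [pow_succ', Module.End.mul_apply, e.L₀, ih, pow_succ', Module.End.mul_apply]

theorem c₁_pow (y : P'.M) (k : ℕ) : e.c₁ ((P'.L ^ k) y) = (E.L ^ k) (e.c₁ y) := by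
  induction k with
  | zero => rfl
  | succ k ih => rw [pow_succ', Module.End.mul_apply, e.L₁, ih, pow_succ', Module.End.mul_apply]

theorem c₂_pow (y : P'.M) (k : ℕ) :
    e.c₂ ((P'.L ^ (k + 1)) y) = (P.L ^ (k + 1)) (e.c₂ y) + (((k : ℚ) + 1) * e.a) • (P.L ^ k) (e.c₀ y) := by
  induction k with
  | zero =>
    rw [zero_add, pow_one, pow_one, pow_zero, e.L₂]
    simp
  | succ k ih =>
    rw [pow_succ' P'.L (k + 1), Module.End.mul_apply, e.L₂, ih, e.c₀_pow, map_add, map_smul,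
      ← Module.End.mul_apply P.L (P.L ^ (k + 1)), ← pow_succ', ← Module.End.mul_apply P.L (P.L ^ k), ← pow_succ']
    push_cast
    module

theorem eq_of (y z : P'.M) (h0 : e.c₀ y = e.c₀ z) (h1 : e.c₁ y = e.c₁ z) (h2 : e.c₂ y = e.c₂ z) : y = z := by
  rw [← sub_eq_zero]
  exact e.ext _ (by rw [map_sub, h0, sub_self]) (by rw [map_sub, h1, sub_self]) (by rw [map_sub, h2, sub_self])

theorem shift_mem {G : ℕ → Submodule ℚ P.M} {k : ℕ} {x y : P.M} (hx : InShift G k x) (hy : InShift G k y) (q : ℚ) :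
    InShift G k (x + q • y) := by
  cases k with
  | zero =>
    change x = 0 at hx
    change y = 0 at hy
    change x + q • y = 0
    rw [hx, hy, smul_zero, add_zero]
  | succ k => exact Submodule.add_mem _ hx (Submodule.smul_mem _ _ hy)

theorem shift_zero (G : ℕ → Submodule ℚ P.M) (k : ℕ) : InShift G k (0 : P.M) := by
  cases k with
  | zero => rfl
  | succ k => exact Submodule.zero_mem _

theorem a_ne : e.a ≠ 0 := e.a_pos.ne'

theorem coef_ne (k : ℕ) : ((k : ℚ) + 1) * e.a ≠ 0 := mul_ne_zero (by positivity) e.a_ne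

/-! ## from the product to the factors -/

include e in
theorem lefschetz_left (hP : P.IsLefschetzModule) (h : P'.Lefschetz) : P.Lefschetz := by
  intro i hi
  obtain ⟨r, hr⟩ : ∃ r, P.n + 1 = 2 * i + r := ⟨P.n + 1 - 2 * i, by omega⟩
  have e1 : P.n + 1 - 2 * i = r := by omega
  have e2 : P.n + 1 - i = i + r := by omega
  have hk := h i (by rw [e.dim]; omega)
  have e3 : P'.n + 1 - 2 * i = r + 1 := by rw [e.dim]; omega
  have e4 : P'.n + 1 - i = i + r + 1 := by rw [e.dim]; omega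
  rw [e1, e2]
  rw [e3, e4] at hk
  refine ⟨fun x hx => hP.pow_mem hx _, fun x hx x' hx' hxx => ?_, fun v hv => ?_⟩
  · have h0 : (P.L ^ r) (x - x') = 0 := by rw [map_sub]; exact sub_eq_zero.mpr hxx
    obtain ⟨y, hy0, hy1, hy2⟩ := e.surj (x - x') 0 0
    have hy : y ∈ P'.G i := by
      rw [e.degrees, hy0, hy1, hy2]
      exact ⟨Submodule.sub_mem _ hx hx', Submodule.zero_mem _, shift_zero _ _⟩
    have h1 : (P'.L ^ (r + 1)) y = 0 := by
      refine e.ext _ ?_ ?_ ?_
      · rw [e.c₀_pow, hy0, pow_succ', Module.End.mul_apply, h0, map_zero]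
      · rw [e.c₁_pow, hy1, map_zero]
      · rw [e.c₂_pow, hy2, hy0, h0, map_zero, smul_zero, add_zero]
    have h2 : y = 0 := hk.injOn hy (Submodule.zero_mem _) (by rw [h1, map_zero])
    rw [h2, map_zero] at hy0
    exact sub_eq_zero.mp hy0.symm
  · obtain ⟨z, hz0, hz1, hz2⟩ := e.surj 0 0 v
    have hz : z ∈ P'.G (i + r + 1) := by
      rw [e.degrees, hz0, hz1, hz2]
      exact ⟨Submodule.zero_mem _, Submodule.zero_mem _, hv⟩
    obtain ⟨y, hy, hyz⟩ := hk.surjOn hz
    have hyz' : (P'.L ^ (r + 1)) y = z := hyz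
    have hy' := (e.degrees i y).mp hy
    have h1 := e.c₂_pow y r
    rw [hyz', hz2] at h1
    refine ⟨P.L (e.c₂ y) + (((r : ℚ) + 1) * e.a) • e.c₀ y, ?_, ?_⟩
    · refine Submodule.add_mem _ ?_ (Submodule.smul_mem _ _ hy'.1)
      cases i with
      | zero =>
        have h2 : e.c₂ y = 0 := hy'.2.2
        rw [h2, map_zero]
        exact Submodule.zero_mem _
      | succ i => exact hP.L_mem _ _ hy'.2.2
    · change (P.L ^ r) _ = v
      rw [map_add, map_smul, ← Module.End.mul_apply, ← pow_succ]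
      exact h1.symm

include e in
theorem lefschetz_right (hE : E.IsLefschetzModule) (h : P'.Lefschetz) : E.Lefschetz := by
  intro i hi
  have hn : E.n = P'.n := by rw [e.dim, e.dimE]
  rw [hn] at hi ⊢
  have hk := h i hi
  obtain ⟨r, hr⟩ : ∃ r, P'.n + 1 = 2 * i + r := ⟨P'.n + 1 - 2 * i, by omega⟩
  have e1 : P'.n + 1 - 2 * i = r := by omega
  have e2 : P'.n + 1 - i = i + r := by omega
  rw [e1, e2] at hk ⊢
  refine ⟨fun x hx => hE.pow_mem hx _, fun x hx x' hx' hxx => ?_, fun v hv => ?_⟩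
  · obtain ⟨y, hy0, hy1, hy2⟩ := e.surj 0 x 0
    obtain ⟨y', hy0', hy1', hy2'⟩ := e.surj 0 x' 0
    have hy : y ∈ P'.G i := by
      rw [e.degrees, hy0, hy1, hy2]
      exact ⟨Submodule.zero_mem _, hx, shift_zero _ _⟩
    have hy' : y' ∈ P'.G i := by
      rw [e.degrees, hy0', hy1', hy2']
      exact ⟨Submodule.zero_mem _, hx', shift_zero _ _⟩
    have h2 : y = y' := by
      refine hk.injOn hy hy' ?_
      refine e.eq_of _ _ ?_ ?_ ?_
      · rw [e.c₀_pow, e.c₀_pow, hy0, hy0']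
      · rw [e.c₁_pow, e.c₁_pow, hy1, hy1']
        exact hxx
      · cases r with
        | zero => rw [pow_zero, Module.End.one_apply, Module.End.one_apply, hy2, hy2']
        | succ r => rw [e.c₂_pow, e.c₂_pow, hy2, hy2', hy0, hy0']
    rw [← hy1, ← hy1', h2]
  · obtain ⟨z, hz0, hz1, hz2⟩ := e.surj 0 v 0
    have hz : z ∈ P'.G (i + r) := by
      rw [e.degrees, hz0, hz1, hz2]
      exact ⟨Submodule.zero_mem _, hv, shift_zero _ _⟩
    obtain ⟨y, hy, hyz⟩ := hk.surjOn hz
    have hyz' : (P'.L ^ r) y = z := hyz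
    refine ⟨e.c₁ y, ((e.degrees i y).mp hy).2.1, ?_⟩
    change (E.L ^ r) (e.c₁ y) = v
    rw [← e.c₁_pow, hyz', hz1]

include e in
theorem hodge_left (h : P'.HodgeIndex) : P.HodgeIndex := by
  intro i x hi hx hne h0
  obtain ⟨r, hr⟩ : ∃ r, P.n + 1 = 2 * i + r := ⟨P.n + 1 - 2 * i, by omega⟩
  have e1 : P.n + 1 - 2 * i = r := by omega
  have e2 : P.n + 2 - 2 * i = r + 1 := by omega
  rw [e1]
  rw [e2] at h0
  obtain ⟨y, hy0, hy1, hy2⟩ := e.surj x 0 0
  have hy : y ∈ P'.G i := by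
    rw [e.degrees, hy0, hy1, hy2]
    exact ⟨hx, Submodule.zero_mem _, shift_zero _ _⟩
  have e3 : P'.n + 1 - 2 * i = r + 1 := by rw [e.dim]; omega
  have e4 : P'.n + 2 - 2 * i = r + 1 + 1 := by rw [e.dim]; omega
  have h1 : (P'.L ^ (r + 1 + 1)) y = 0 := by
    refine e.ext _ ?_ ?_ ?_
    · rw [e.c₀_pow, hy0, pow_succ', Module.End.mul_apply, h0, map_zero]
    · rw [e.c₁_pow, hy1, map_zero]
    · rw [e.c₂_pow, hy2, hy0, h0, map_zero, smul_zero, add_zero]
  have h2 := h i y (by rw [e.dim]; omega) hy (fun h3 => hne (by rw [← hy0, h3, map_zero])) (by rw [e4, h1])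
  rw [e3, e.ht, hy0, hy1, hy2, e.c₂_pow, hy0, hy2, map_zero, zero_add, map_smul, map_zero, map_zero,
    LinearMap.zero_apply, LinearMap.zero_apply, add_zero, add_zero, Rat.smul_def] at h2
  have h3 : (0 : ℝ) < ((((r : ℚ) + 1) * e.a : ℚ) : ℝ) := by
    have := e.a_pos
    exact_mod_cast (by positivity : (0 : ℚ) < ((r : ℚ) + 1) * e.a)
  have h4 : (-1 : ℝ) ^ i * (((((r : ℚ) + 1) * e.a : ℚ) : ℝ) * P.ht x ((P.L ^ r) x)) =
      ((((r : ℚ) + 1) * e.a : ℚ) : ℝ) * ((-1) ^ i * P.ht x ((P.L ^ r) x)) := by ring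
  rw [h4] at h2
  exact (mul_pos_iff_of_pos_left h3).mp h2

include e in
theorem hodge_right (h : P'.HodgeIndex) : E.HodgeIndex := by
  intro i x hi hx hne h0
  have hn : E.n = P'.n := by rw [e.dim, e.dimE]
  rw [hn] at hi h0 ⊢
  obtain ⟨y, hy0, hy1, hy2⟩ := e.surj 0 x 0
  have hy : y ∈ P'.G i := by
    rw [e.degrees, hy0, hy1, hy2]
    exact ⟨Submodule.zero_mem _, hx, shift_zero _ _⟩
  have hpow : ∀ r, e.c₂ ((P'.L ^ r) y) = 0 := by
    intro r
    cases r with
    | zero => rw [pow_zero, Module.End.one_apply, hy2]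
    | succ r => rw [e.c₂_pow, hy2, hy0, map_zero, map_zero, smul_zero, add_zero]
  have h1 : (P'.L ^ (P'.n + 2 - 2 * i)) y = 0 := by
    refine e.ext _ ?_ ?_ (hpow _)
    · rw [e.c₀_pow, hy0, map_zero]
    · rw [e.c₁_pow, hy1, h0]
  have h2 := h i y hi hy (fun h3 => hne (by rw [← hy1, h3, map_zero])) h1
  rw [e.ht, hpow, hy0, hy1, hy2, e.c₁_pow, hy1, map_zero, map_zero, LinearMap.zero_apply, zero_add, zero_add] at h2
  exact h2

/-! ## from the factors to the product -/

theorem shift_L (hP : P.IsLefschetzModule) {i : ℕ} {w : P.M} (hw : InShift P.G i w) : P.L w ∈ P.G i := by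
  cases i with
  | zero =>
    change w = 0 at hw
    rw [hw, map_zero]
    exact Submodule.zero_mem _
  | succ i => exact hP.L_mem _ _ hw

/-- `L^(s + 2)` on the shifted terms is injective -/
theorem shift_inj (h : P.Lefschetz) {i s : ℕ} (hs : P.n + 1 = 2 * i + s) {w : P.M} (hw : InShift P.G i w)
    (h0 : (P.L ^ (s + 2)) w = 0) : w = 0 := by
  cases i with
  | zero => exact hw
  | succ i =>
    have hk := h i (by omega)
    have e5 : P.n + 1 - 2 * i = s + 2 := by omega
    rw [e5] at hk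
    exact hk.injOn hw (Submodule.zero_mem _) (by rw [h0, map_zero])

/-- `L^(s + 2)` on the shifted terms is surjective -/
theorem shift_surj (h : P.Lefschetz) (htop : ∀ m x, P.n < m → x ∈ P.G m → x = 0) {i s : ℕ} (hs : P.n + 1 = 2 * i + s)
    {u : P.M} (hu : u ∈ P.G (i + s + 1)) : ∃ w, InShift P.G i w ∧ (P.L ^ (s + 2)) w = u := by
  cases i with
  | zero =>
    refine ⟨0, rfl, ?_⟩
    rw [map_zero, htop _ u (by omega) hu]
  | succ i =>
    have hk := h i (by omega)
    have e5 : P.n + 1 - 2 * i = s + 2 := by omega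
    have e6 : P.n + 1 - i = i + 1 + s + 1 := by omega
    rw [e5, e6] at hk
    obtain ⟨w, hw, hwu⟩ := hk.surjOn hu
    exact ⟨w, hw, hwu⟩

theorem pow_shift_mem (hP : P.IsLefschetzModule) {i : ℕ} {w : P.M} (hw : InShift P.G i w) (s : ℕ) :
    (P.L ^ (s + 1)) w ∈ P.G (i + s) := by
  rw [pow_succ, Module.End.mul_apply]
  exact hP.pow_mem (shift_L hP hw) s

include e in
theorem lefschetz (hP : P.IsLefschetzModule) (hP' : P'.IsLefschetzModule) (htop : ∀ m x, P.n < m → x ∈ P.G m → x = 0)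
    (h : P.Lefschetz) (hE : E.Lefschetz) : P'.Lefschetz := by
  intro i hi
  obtain ⟨r, hr⟩ : ∃ r, P'.n + 1 = 2 * i + r := ⟨P'.n + 1 - 2 * i, by omega⟩
  have e1 : P'.n + 1 - 2 * i = r := by omega
  have e2 : P'.n + 1 - i = i + r := by omega
  rw [e1, e2]
  cases r with
  | zero =>
    refine ⟨fun x hx => hx, fun x _ x' _ hxx => hxx, fun v hv => ⟨v, hv, rfl⟩⟩
  | succ s =>
    have hs : P.n + 1 = 2 * i + s := by rw [e.dim] at hr; omega
    have hkE := hE i (by rw [e.dimE]; rw [e.dim] at hi; omega)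
    have e3 : E.n + 1 - 2 * i = s + 1 := by rw [e.dimE]; omega
    have e4 : E.n + 1 - i = i + (s + 1) := by rw [e.dimE]; omega
    rw [e3, e4] at hkE
    have hk := h i (by omega)
    have e5 : P.n + 1 - 2 * i = s := by omega
    have e6 : P.n + 1 - i = i + s := by omega
    rw [e5, e6] at hk
    refine ⟨fun x hx => hP'.pow_mem hx _, fun y hy y' hy' hyy => ?_, fun v hv => ?_⟩
    · rw [← sub_eq_zero]
      have h0 : (P'.L ^ (s + 1)) (y - y') = 0 := by rw [map_sub]; exact sub_eq_zero.mpr hyy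
      have hz := (e.degrees _ _).mp (Submodule.sub_mem _ hy hy')
      generalize y - y' = z at h0 hz
      have h2 := e.c₂_pow z s
      have h1 := e.c₁_pow z (s + 1)
      have h3 := e.c₀_pow z (s + 1)
      rw [h0, map_zero] at h1 h2 h3
      have h4 : (P.L ^ (s + 2)) (e.c₂ z) = 0 := by
        have h5 := congrArg P.L h2
        rw [map_zero, map_add, map_smul, ← Module.End.mul_apply P.L (P.L ^ (s + 1)), ← pow_succ',
          ← Module.End.mul_apply P.L (P.L ^ s), ← pow_succ', ← h3, smul_zero, add_zero] at h5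
        exact h5.symm
      have h5 := shift_inj h hs hz.2.2 h4
      rw [h5, map_zero, zero_add] at h2
      have h6 : (P.L ^ s) (e.c₀ z) = 0 := (smul_eq_zero.mp h2.symm).resolve_left (e.coef_ne s)
      refine e.ext _ ?_ ?_ h5
      · exact hk.injOn hz.1 (Submodule.zero_mem _) (by rw [h6, map_zero])
      · exact hkE.injOn hz.2.1 (Submodule.zero_mem _) (by rw [← h1, map_zero])
    · have hv' := (e.degrees _ _).mp hv
      obtain ⟨z, hz, hzv⟩ := hkE.surjOn hv'.2.1
      have hzv' : (E.L ^ (s + 1)) z = e.c₁ v := hzv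
      obtain ⟨w', hw', hwu⟩ := shift_surj h htop hs (show e.c₀ v ∈ P.G (i + s + 1) from hv'.1)
      obtain ⟨x', hx', hxv⟩ := hk.surjOn (show e.c₂ v ∈ P.G (i + s) from hv'.2.2)
      have hxv' : (P.L ^ s) x' = e.c₂ v := hxv
      obtain ⟨w'', hw'', hww⟩ := shift_surj h htop hs (show (P.L ^ (s + 1)) x' ∈ P.G (i + s + 1) from hP.pow_mem hx' (s + 1))
      set b : ℚ := ((s : ℚ) + 1) * e.a with hb
      have hb0 : b ≠ 0 := e.coef_ne s
      have hw : InShift P.G i (w'' + (-b) • w') := shift_mem hw'' hw' _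
      have hLw : (P.L ^ (s + 2)) (w'' + (-b) • w') = (P.L ^ (s + 1)) x' - b • e.c₀ v := by
        rw [map_add, map_smul, hww, hwu]
        module
      obtain ⟨y, hy0, hy1, hy2⟩ := e.surj (b⁻¹ • (x' - P.L (w'' + (-b) • w'))) z (w'' + (-b) • w')
      refine ⟨y, ?_, ?_⟩
      · change y ∈ P'.G i
        rw [e.degrees, hy0, hy1, hy2]
        exact ⟨Submodule.smul_mem _ _ (Submodule.sub_mem _ hx' (shift_L hP hw)), hz, hw⟩
      · change (P'.L ^ (s + 1)) y = v
        refine e.eq_of _ _ ?_ ?_ ?_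
        · rw [e.c₀_pow, hy0, map_smul, map_sub, ← Module.End.mul_apply (P.L ^ (s + 1)) P.L, ← pow_succ, hLw]
          rw [sub_sub_cancel, smul_smul, inv_mul_cancel₀ hb0, one_smul]
        · rw [e.c₁_pow, hy1, hzv']
        · rw [e.c₂_pow, hy2, hy0, map_smul, map_sub, ← Module.End.mul_apply (P.L ^ s) P.L, ← pow_succ, hxv', ← hb, smul_smul,
            mul_inv_cancel₀ hb0, one_smul]
          abel

include e in
/-- Q2 for the product -/
theorem hodgeIndex (hP : P.IsLefschetzModule) (h : P.HodgeIndex) (hE : E.HodgeIndex) : P'.HodgeIndex := by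
  intro i y hi hy hne h0
  obtain ⟨r, hr⟩ : ∃ r, P'.n + 1 = 2 * i + r := ⟨P'.n + 1 - 2 * i, by omega⟩
  have e1 : P'.n + 1 - 2 * i = r := by omega
  have e2 : P'.n + 2 - 2 * i = r + 1 := by omega
  rw [e2] at h0
  rw [e1]
  have hy' := (e.degrees _ _).mp hy
  have hn : P.n + 2 = 2 * i + r := by rw [e.dim] at hr; omega
  have ha : (0 : ℝ) < (e.a : ℝ) := by exact_mod_cast e.a_pos
  have ha' : (e.a : ℝ) ≠ 0 := ha.ne'
  have h3 := e.c₀_pow y (r + 1)
  have h4 := e.c₁_pow y (r + 1)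
  have h5 := e.c₂_pow y r
  rw [h0, map_zero] at h3 h4 h5
  -- the term `c₁`
  have hE1 : 0 ≤ (-1 : ℝ) ^ i * E.ht (e.c₁ y) ((E.L ^ r) (e.c₁ y)) := by
    by_cases hz : e.c₁ y = 0
    · rw [hz, map_zero, LinearMap.zero_apply, mul_zero]
    · have := hE i (e.c₁ y) (by rw [e.dimE]; omega) hy'.2.1 hz (by
        have e3 : E.n + 2 - 2 * i = r + 1 := by rw [e.dimE]; omega
        rw [e3, ← h4])
      have e3 : E.n + 1 - 2 * i = r := by rw [e.dimE]; omega
      rw [e3] at this
      exact this.le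
  have hE2 : e.c₁ y ≠ 0 → 0 < (-1 : ℝ) ^ i * E.ht (e.c₁ y) ((E.L ^ r) (e.c₁ y)) := by
    intro hz
    have := hE i (e.c₁ y) (by rw [e.dimE]; omega) hy'.2.1 hz (by
      have e3 : E.n + 2 - 2 * i = r + 1 := by rw [e.dimE]; omega
      rw [e3, ← h4])
    have e3 : E.n + 1 - 2 * i = r := by rw [e.dimE]; omega
    rw [e3] at this
    exact this
  -- the term `c₂` is primitive
  have hw0 : (P.L ^ (r + 2)) (e.c₂ y) = 0 := by
    have h6 := congrArg P.L h5
    rw [map_zero, map_add, map_smul, ← Module.End.mul_apply P.L (P.L ^ (r + 1)), ← pow_succ',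
      ← Module.End.mul_apply P.L (P.L ^ r), ← pow_succ', ← h3, smul_zero, add_zero] at h6
    exact h6.symm
  have hW : ∀ x, InShift P.G i x → (P.L ^ (r + 2)) x = 0 → x ≠ 0 →
      (-1 : ℝ) ^ i * P.ht x ((P.L ^ (r + 1)) x) < 0 := by
    intro x hx hx0 hxn
    cases i with
    | zero => exact absurd hx hxn
    | succ i =>
      have e3 : P.n + 2 - 2 * i = r + 2 := by omega
      have e4 : P.n + 1 - 2 * i = r + 1 := by omega
      have := h i x (by omega) hx hxn (by rw [e3, hx0])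
      rw [e4] at this
      have h7 : (-1 : ℝ) ^ (i + 1) * P.ht x ((P.L ^ (r + 1)) x) = -((-1) ^ i * P.ht x ((P.L ^ (r + 1)) x)) := by ring
      rw [h7]
      linarith
  rw [e.ht, e.c₀_pow, e.c₁_pow]
  generalize hz : e.c₁ y = z at *
  generalize hx : e.c₀ y = x at *
  generalize hw : e.c₂ y = w at *
  have hyz : x = 0 → w = 0 → z ≠ 0 := fun h6 h7 h8 => hne (e.ext y (hx.trans h6) (hz.trans h8) (hw.trans h7))
  have hW' : 0 ≤ -((-1 : ℝ) ^ i * P.ht w ((P.L ^ (r + 1)) w)) := by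
    by_cases hw1 : w = 0
    · rw [hw1, map_zero, LinearMap.zero_apply, mul_zero, neg_zero]
    · linarith [hW w hy'.2.2 hw0 hw1]
  cases r with
  | zero =>
    rw [pow_zero, pow_zero, pow_zero, Module.End.one_apply, Module.End.one_apply, Module.End.one_apply, hw]
    rw [pow_zero, Module.End.one_apply] at hE1 hE2
    rw [zero_add, pow_one] at hW'
    have h6 : x = (-(e.a)⁻¹) • P.L w := by
      have h7 : P.L w + e.a • x = 0 := by
        rw [zero_add, pow_one, pow_zero, Module.End.one_apply] at h5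
        rw [h5]
        push_cast
        module
      rw [neg_smul, eq_neg_iff_add_eq_zero, ← smul_right_injective _ e.a_ne |>.eq_iff, smul_add, smul_smul,
        mul_inv_cancel₀ e.a_ne, one_smul, smul_zero, add_comm]
      exact h7
    have h8 : P.ht x w = -(e.a : ℝ)⁻¹ * P.ht w (P.L w) := by
      rw [h6, map_smul, LinearMap.smul_apply, hP.adjoint, Rat.smul_def]
      push_cast
      ring
    have h9 : P.ht w x = -(e.a : ℝ)⁻¹ * P.ht w (P.L w) := by
      rw [h6, map_smul, Rat.smul_def]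
      push_cast
      ring
    rw [h8, h9]
    have h10 : (-1 : ℝ) ^ i * (-(e.a : ℝ)⁻¹ * P.ht w (P.L w) + -(e.a : ℝ)⁻¹ * P.ht w (P.L w) + E.ht z z) =
        2 * (e.a : ℝ)⁻¹ * (-((-1) ^ i * P.ht w (P.L w))) + (-1) ^ i * E.ht z z := by ring
    rw [h10]
    have h11 : 0 < 2 * (e.a : ℝ)⁻¹ := by positivity
    by_cases hw1 : w = 0
    · have hx1 : x = 0 := by rw [h6, hw1, map_zero, smul_zero]
      have := hE2 (hyz hx1 hw1)
      have := mul_nonneg h11.le hW'
      linarith
    · have h12 := hW w hy'.2.2 hw0 hw1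
      rw [zero_add, pow_one] at h12
      have := mul_pos h11 (neg_pos.mpr h12)
      linarith
  | succ s =>
    rw [e.c₂_pow, hw, hx]
    have hb : ((s : ℚ) + 2) * e.a ≠ 0 := mul_ne_zero (by positivity) e.a_ne
    obtain ⟨β, hβ⟩ : ∃ β : ℚ, β = (((s : ℚ) + 2) * e.a)⁻¹ := ⟨_, rfl⟩
    obtain ⟨p, hp⟩ : ∃ p, p = x + β • P.L w := ⟨_, rfl⟩
    have hxp : x = p - β • P.L w := by rw [hp]; abel
    have hLp : (P.L ^ (s + 1)) p = 0 := by
      rw [hp, map_add, map_smul, ← Module.End.mul_apply (P.L ^ (s + 1)) P.L, ← pow_succ,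
        ← smul_right_injective _ hb |>.eq_iff, smul_add, smul_smul, hβ, mul_inv_cancel₀ hb, one_smul, smul_zero, add_comm]
      rw [h5]
      push_cast
      module
    have hpm : p ∈ P.G i := by
      rw [hp]
      exact Submodule.add_mem _ hy'.1 (Submodule.smul_mem _ _ (shift_L hP hy'.2.2))
    have q1 : P.ht p ((P.L ^ (s + 1)) w) = 0 := by
      have := hP.pow_adjoint p w (s + 1) 0
      rw [hLp, map_zero, LinearMap.zero_apply, add_zero] at this
      exact this.symm
    have q2 : P.ht (P.L w) ((P.L ^ (s + 1)) w) = P.ht w ((P.L ^ (s + 2)) w) := by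
      have := hP.pow_adjoint w w 1 (s + 1)
      rw [pow_one, show 1 + (s + 1) = s + 2 by omega] at this
      exact this
    have q3 : P.ht (P.L w) ((P.L ^ s) p) = 0 := by
      have := hP.pow_adjoint w p 1 s
      rw [pow_one, show 1 + s = s + 1 by omega, hLp, map_zero] at this
      exact this
    have q4 : P.ht x ((P.L ^ (s + 1)) w) = -(β : ℝ) * P.ht w ((P.L ^ (s + 2)) w) := by
      rw [hxp, map_sub, LinearMap.sub_apply, q1, map_smul, LinearMap.smul_apply, q2, Rat.smul_def]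
      ring
    have q5 : (P.L ^ s) x = (P.L ^ s) p - β • (P.L ^ (s + 1)) w := by
      rw [hxp, map_sub, map_smul, ← Module.End.mul_apply (P.L ^ s) P.L, ← pow_succ]
    have q6 : (P.L ^ (s + 1)) x = - (β • (P.L ^ (s + 2)) w) := by
      rw [hxp, map_sub, map_smul, ← Module.End.mul_apply (P.L ^ (s + 1)) P.L, ← pow_succ, hLp, zero_sub]
    have q7 : P.ht x ((P.L ^ s) x) = P.ht p ((P.L ^ s) p) + (β : ℝ) ^ 2 * P.ht w ((P.L ^ (s + 2)) w) := by
      rw [q5, map_sub, map_smul, q4, hxp, map_sub, LinearMap.sub_apply, map_smul, LinearMap.smul_apply, q3, Rat.smul_def,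
        Rat.smul_def]
      ring
    have q8 : P.ht w ((P.L ^ (s + 1)) x) = -(β : ℝ) * P.ht w ((P.L ^ (s + 2)) w) := by
      rw [q6, map_neg, map_smul, Rat.smul_def]
      ring
    have hβ' : (β : ℝ) * (((s : ℝ) + 2) * (e.a : ℝ)) = 1 := by
      have : β * (((s : ℚ) + 2) * e.a) = 1 := by rw [hβ]; exact inv_mul_cancel₀ hb
      exact_mod_cast this
    have hβ0 : (0 : ℝ) < (β : ℝ) := by
      have : 0 < β := by
        rw [hβ]
        have := e.a_pos
        positivity
      exact_mod_cast this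
    have q9 : (-1 : ℝ) ^ i * (P.ht x ((P.L ^ (s + 1)) w + (((s : ℚ) + 1) * e.a) • (P.L ^ s) x) + P.ht w ((P.L ^ (s + 1)) x) +
        E.ht z ((E.L ^ (s + 1)) z)) =
        (((s : ℝ) + 1) * e.a) * ((-1) ^ i * P.ht p ((P.L ^ s) p)) +
        ((s + 3 : ℝ) * β * (β * e.a)) * (-((-1) ^ i * P.ht w ((P.L ^ (s + 2)) w))) +
        (-1) ^ i * E.ht z ((E.L ^ (s + 1)) z) := by
      rw [map_add, map_smul, q4, q7, q8, Rat.smul_def]
      push_cast
      generalize P.ht w ((P.L ^ (s + 2)) w) = H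
      generalize P.ht p ((P.L ^ s) p) = Q
      generalize E.ht z ((E.L ^ (s + 1)) z) = R
      have e7 : (β : ℝ) = β * (β * (((s : ℝ) + 2) * (e.a : ℝ))) := by rw [hβ', mul_one]
      linear_combination (-2 * (-1 : ℝ) ^ i * H) * e7
    rw [q9]
    have c1 : (0 : ℝ) < ((s : ℝ) + 1) * e.a := by positivity
    have c2 : (0 : ℝ) < (s + 3 : ℝ) * β * (β * e.a) := by positivity
    have hPp : 0 ≤ (-1 : ℝ) ^ i * P.ht p ((P.L ^ s) p) ∧ (p ≠ 0 → 0 < (-1 : ℝ) ^ i * P.ht p ((P.L ^ s) p)) := by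
      have e3 : P.n + 2 - 2 * i = s + 1 := by omega
      have e4 : P.n + 1 - 2 * i = s := by omega
      have h6 : p ≠ 0 → 0 < (-1 : ℝ) ^ i * P.ht p ((P.L ^ s) p) := by
        intro hp0
        have := h i p (by omega) hpm hp0 (by rw [e3, hLp])
        rw [e4] at this
        exact this
      refine ⟨?_, h6⟩
      by_cases hp0 : p = 0
      · rw [hp0, map_zero, LinearMap.zero_apply, mul_zero]
      · exact (h6 hp0).le
    have d1 := mul_nonneg c1.le hPp.1
    have d2 := mul_nonneg c2.le hW'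
    by_cases hp0 : p = 0
    · by_cases hw1 : w = 0
      · have hx1 : x = 0 := by rw [hxp, hp0, hw1, map_zero, smul_zero, sub_zero]
        have d3 := hE2 (hyz hx1 hw1)
        linarith
      · have d3 := mul_pos c2 (neg_pos.mpr (hW w hy'.2.2 hw0 hw1))
        linarith
    · have d3 := mul_pos c1 (hPp.2 hp0)
      linarith

include e in
theorem lefschetz_iff (hP : P.IsLefschetzModule) (hE : E.IsLefschetzModule) (hP' : P'.IsLefschetzModule)
    (htop : ∀ m x, P.n < m → x ∈ P.G m → x = 0) : P'.Lefschetz ↔ P.Lefschetz ∧ E.Lefschetz :=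
  ⟨fun h => ⟨e.lefschetz_left hP h, e.lefschetz_right hE h⟩, fun h => e.lefschetz hP hP' htop h.1 h.2⟩

include e in
theorem hodgeIndex_iff (hP : P.IsLefschetzModule) : P'.HodgeIndex ↔ P.HodgeIndex ∧ E.HodgeIndex :=
  ⟨fun h => ⟨e.hodge_left h, e.hodge_right h⟩, fun h => e.hodgeIndex hP h.1 h.2⟩

end ProductWithCurve

namespace IsCurveTower

variable {k : ℕ} {F : ℕ → Finset ℕ → Pol} (h : IsCurveTower k F)
include h

omit h in
theorem induct (Q : Pol → Prop)
    (hQ : ∀ j S, (∀ s ∈ S, j + 1 < s ∧ s ≤ k) → j + 1 ≤ k → (Q (F (j + 1) S) ↔ Q (F j S) ∧ Q (F j (insert (j + 1) S)))) (m : ℕ)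
    (hm : m ≤ k) : Q (F k ∅) ↔ ∀ S, (∀ s ∈ S, k - m < s ∧ s ≤ k) → Q (F (k - m) S) := by
  induction m with
  | zero =>
    rw [Nat.sub_zero]
    refine ⟨fun h1 S hS => ?_, fun h1 => h1 ∅ (by simp)⟩
    have : S = ∅ := Finset.eq_empty_of_forall_notMem fun s hs => by have := hS s hs; omega
    rw [this]
    exact h1
  | succ m ih =>
    rw [ih (by omega)]
    obtain ⟨j, hj⟩ : ∃ j, j = k - (m + 1) := ⟨_, rfl⟩
    have hj' : k - m = j + 1 := by omega
    rw [hj', ← hj]
    constructor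
    · intro h1 S hS
      by_cases hmem : j + 1 ∈ S
      · have hS' : ∀ s ∈ S.erase (j + 1), j + 1 < s ∧ s ≤ k := by
          intro s hs
          rw [Finset.mem_erase] at hs
          have := hS s hs.2
          have := hs.1
          omega
        have := ((hQ j _ hS' (by omega)).mp (h1 _ hS')).2
        rwa [Finset.insert_erase hmem] at this
      · have hS' : ∀ s ∈ S, j + 1 < s ∧ s ≤ k := by
          intro s hs
          have := hS s hs
          have : s ≠ j + 1 := fun h2 => hmem (h2 ▸ hs)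
          omega
        exact ((hQ j _ hS' (by omega)).mp (h1 _ hS')).1
    · intro h1 S hS
      refine (hQ j S hS (by omega)).mpr ⟨h1 S fun s hs => ?_, h1 _ fun s hs => ?_⟩
      · have := hS s hs
        omega
      · rcases Finset.mem_insert.mp hs with h2 | h2
        · omega
        · have := hS s h2
          omega

theorem lefschetz_iff : (F k ∅).Lefschetz ↔ ∀ S, (∀ s ∈ S, 0 < s ∧ s ≤ k) → (F 0 S).Lefschetz := by
  have := induct Pol.Lefschetz (fun j S hS hj => by
    obtain ⟨e⟩ := h.step j S hS hj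
    refine e.lefschetz_iff (h.module _ _ fun s hs => ?_) (h.module _ _ fun s hs => ?_) (h.module _ _ hS)
      (h.top _ _ fun s hs => ?_)
    · have := hS s hs
      omega
    · rcases Finset.mem_insert.mp hs with h2 | h2
      · omega
      · have := hS s h2
        omega
    · have := hS s hs
      omega) k le_rfl
  rwa [Nat.sub_self] at this

theorem hodgeIndex_iff : (F k ∅).HodgeIndex ↔ ∀ S, (∀ s ∈ S, 0 < s ∧ s ≤ k) → (F 0 S).HodgeIndex := by
  have := induct Pol.HodgeIndex (fun j S hS hj => by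
    obtain ⟨e⟩ := h.step j S hS hj
    refine e.hodgeIndex_iff (h.module _ _ fun s hs => ?_)
    have := hS s hs
    omega) k le_rfl
  rwa [Nat.sub_self] at this

end IsCurveTower

/-- Q1 and Q2 if the Lefschetz operator is zero -/
theorem Pol.iff_of_zero (P : Pol) (htop : ∀ m x, P.n < m → x ∈ P.G m → x = 0) (h0 : ∀ x, P.L x = 0) :
    P.Lefschetz ∧ P.HodgeIndex ↔ ∀ i x, x ∈ P.G i → x ≠ 0 → 2 * i = P.n + 1 ∧ 0 < (-1) ^ i * P.ht x x := by
  have hp : ∀ (r : ℕ) x, (P.L ^ (r + 1)) x = 0 := fun r x => by rw [pow_succ', Module.End.mul_apply, h0]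
  constructor
  · rintro ⟨h1, h2⟩ i x hx hne
    rcases lt_trichotomy (2 * i) (P.n + 1) with hi | hi | hi
    · have h3 := h1 i hi.le
      obtain ⟨r, hr⟩ : ∃ r, P.n + 1 - 2 * i = r + 1 := ⟨P.n - 2 * i, by omega⟩
      rw [hr] at h3
      exact absurd (h3.injOn hx (Submodule.zero_mem _) (by simp only [hp])) hne
    · refine ⟨hi, ?_⟩
      have e1 : P.n + 2 - 2 * i = 0 + 1 := by omega
      have e2 : P.n + 1 - 2 * i = 0 := by omega
      have h3 := h2 i x hi.le hx hne (by rw [e1, hp])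
      rw [e2, pow_zero, Module.End.one_apply] at h3
      exact h3
    · by_cases hi' : i ≤ P.n + 1
      · obtain ⟨j, hj⟩ : ∃ j, j = P.n + 1 - i := ⟨_, rfl⟩
        have h3 := h1 j (by omega)
        obtain ⟨r, hr⟩ : ∃ r, P.n + 1 - 2 * j = r + 1 := ⟨P.n - 2 * j, by omega⟩
        rw [hr, show P.n + 1 - j = i by omega] at h3
        obtain ⟨y, _, hy⟩ := h3.surjOn hx
        exact absurd (by rw [← hy]; exact hp r y) hne
      · exact absurd (htop i x (by omega) hx) hne
  · intro h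
    constructor
    · intro i hi
      obtain ⟨r, hr⟩ : ∃ r, P.n + 1 = 2 * i + r := ⟨P.n + 1 - 2 * i, by omega⟩
      have e1 : P.n + 1 - 2 * i = r := by omega
      have e2 : P.n + 1 - i = i + r := by omega
      rw [e1, e2]
      cases r with
      | zero => exact ⟨fun x hx => hx, fun x _ x' _ hxx => hxx, fun v hv => ⟨v, hv, rfl⟩⟩
      | succ r =>
        have hz : ∀ j, 2 * j ≠ P.n + 1 → ∀ x ∈ P.G j, x = 0 := fun j hj x hx => by
          by_contra hne
          exact hj (h j x hx hne).1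
        refine ⟨fun x hx => ?_, fun x hx x' hx' _ => ?_, fun v hv => ⟨0, Submodule.zero_mem _, ?_⟩⟩
        · change (P.L ^ (r + 1)) x ∈ _
          rw [hp]
          exact Submodule.zero_mem _
        · rw [hz i (by omega) x hx, hz i (by omega) x' hx']
        · change (P.L ^ (r + 1)) 0 = v
          rw [map_zero, hz _ (by omega) v hv]
    · intro i x hi hx hne _
      obtain ⟨h1, h2⟩ := h i x hx hne
      have e2 : P.n + 1 - 2 * i = 0 := by omega
      rw [e2, pow_zero, Module.End.one_apply]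
      exact h2

theorem IsCurveTower.curves_iff {k : ℕ} {F : ℕ → Finset ℕ → Pol} (h : IsCurveTower k F)
    (h0 : ∀ S (x : (F 0 S).M), (∀ s ∈ S, 0 < s ∧ s ≤ k) → (F 0 S).L x = 0) :
    (F k ∅).Lefschetz ∧ (F k ∅).HodgeIndex ↔ ∀ S, (∀ s ∈ S, 0 < s ∧ s ≤ k) → ∀ i (x : (F 0 S).M), x ∈ (F 0 S).G i → x ≠ 0 →
      2 * i = (F 0 S).n + 1 ∧ 0 < (-1) ^ i * (F 0 S).ht x x := by
  rw [h.lefschetz_iff, h.hodgeIndex_iff]
  constructor
  · rintro ⟨h1, h2⟩ S hS
    exact ((F 0 S).iff_of_zero (h.top 0 S hS) fun x => h0 S x hS).mp ⟨h1 S hS, h2 S hS⟩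
  · intro h1
    have h2 := fun S hS => ((F 0 S).iff_of_zero (h.top 0 S hS) fun x => h0 S x hS).mpr (h1 S hS)
    exact ⟨fun S hS => (h2 S hS).1, fun S hS => (h2 S hS).2⟩

end Pool.Agent.T6.H33.BL
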