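import Pool.Agent.T6.H33.BL.Defs

/-! # Products with pointed curves -/

set_option autoImplicit false

namespace Pool.Agent.T6.H33.BL

/-- `x` is in the term `k - 1` of the sequence `G`, and zero if `k = 0`. -/
def InShift {M : Type} [AddCommGroup M] [Module ℚ M] (G : ℕ → Submodule ℚ M) : ℕ → M → Prop
  | 0, x => x = 0
  | k + 1, x => x ∈ G k

/-- `P'` is the product `X × C` of the polarised variety `P = X` and a curve `C` with the polarisation given by `a` times a
rational point, with the class `e`, and `E` is the direct summand `X ⊗ h^1(C)` of `X × C`, with the restrictions of the Lefschetz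
operator and of the height pairing of `X × C`. Every homologically trivial cycle on `X × C` is uniquely
`c₀ × C + c₁ + c₂ × e`, where `c₁` is a cycle on `X ⊗ h^1(C)`. -/
structure ProductWithCurve (P E P' : Pol) where
  a : ℚ
  c₀ : P'.M →ₗ[ℚ] P.M
  c₁ : P'.M →ₗ[ℚ] E.M
  c₂ : P'.M →ₗ[ℚ] P.M
  a_pos : 0 < a
  dim : P'.n = P.n + 1
  dimE : E.n = P.n + 1
  ext : ∀ y, c₀ y = 0 → c₁ y = 0 → c₂ y = 0 → y = 0
  surj : ∀ x₀ x₁ x₂, ∃ y, c₀ y = x₀ ∧ c₁ y = x₁ ∧ c₂ y = x₂
  degrees : ∀ k y, y ∈ P'.G k ↔ c₀ y ∈ P.G k ∧ c₁ y ∈ E.G k ∧ InShift P.G k (c₂ y)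
  L₀ : ∀ y, c₀ (P'.L y) = P.L (c₀ y)
  L₁ : ∀ y, c₁ (P'.L y) = E.L (c₁ y)
  L₂ : ∀ y, c₂ (P'.L y) = P.L (c₂ y) + a • c₀ y
  ht : ∀ y z, P'.ht y z = P.ht (c₀ y) (c₂ z) + P.ht (c₂ y) (c₀ z) + E.ht (c₁ y) (c₁ z)

/-- For a polarised variety `X` and pointed curves `C_1, …, C_k` with polarisations given by positive multiples of the points,
`F j S` is, for a set `S` of indices `s` with `j < s ≤ k`, the direct summand
`X × C_1 × ⋯ × C_j ⊗ (tensor product of the h^1(C_s), s in S)` of `X × C_1 × ⋯ × C_j × (product of the C_s, s in S)`, with the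
restrictions of the Lefschetz operator and of the height pairing of this product, and with the dimension of this product.
There are no cycles of codimension greater than the dimension. -/
structure IsCurveTower (k : ℕ) (F : ℕ → Finset ℕ → Pol) : Prop where
  module : ∀ j S, (∀ s ∈ S, j < s ∧ s ≤ k) → (F j S).IsLefschetzModule
  top : ∀ j S, (∀ s ∈ S, j < s ∧ s ≤ k) → ∀ m x, (F j S).n < m → x ∈ (F j S).G m → x = 0
  step : ∀ j S, (∀ s ∈ S, j + 1 < s ∧ s ≤ k) → j + 1 ≤ k →
    Nonempty (ProductWithCurve (F j S) (F j (insert (j + 1) S)) (F (j + 1) S))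

end Pool.Agent.T6.H33.BL
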