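import Mathlib

/-! # Homologically trivial cycles on arithmetic varieties: the Lefschetz operator and the height pairing -/

set_option autoImplicit false

namespace Pool.Agent.T6.H33.BL

/-- The homologically trivial cycles on the generic fibre `X_K` of a regular arithmetic variety `X` of relative dimension `n`
with an ample hermitian line bundle: `G i` is the space `Ch^i(X_K)^0`, as a subspace of the sum `M` of these spaces, `L` is the
Lefschetz operator and `ht` the Beilinson-Bloch height pairing. -/
structure Pol where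
  n : ℕ
  M : Type
  addM : AddCommGroup M
  modM : Module ℚ M
  G : ℕ → Submodule ℚ M
  L : M →ₗ[ℚ] M
  ht : M →ₗ[ℚ] M →ₗ[ℚ] ℝ

attribute [instance] Pol.addM Pol.modM

namespace Pol

variable (P : Pol)

/-- `L` has degree one and is self-adjoint for the height pairing. -/
structure IsLefschetzModule : Prop where
  L_mem : ∀ i x, x ∈ P.G i → P.L x ∈ P.G (i + 1)
  adjoint : ∀ x y, P.ht (P.L x) y = P.ht x (P.L y)

/-- Q1 for one variety: `L^(n + 1 - 2 i)` is an isomorphism from `Ch^i(X_K)^0` to `Ch^(n + 1 - i)(X_K)^0` for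
`i ≤ (n + 1) / 2`. -/
def Lefschetz : Prop :=
  ∀ i, 2 * i ≤ P.n + 1 → Set.BijOn (fun x => (P.L ^ (P.n + 1 - 2 * i)) x) (P.G i) (P.G (P.n + 1 - i))

/-- Q2 for one variety. -/
def HodgeIndex : Prop :=
  ∀ i x, 2 * i ≤ P.n + 1 → x ∈ P.G i → x ≠ 0 → (P.L ^ (P.n + 2 - 2 * i)) x = 0 →
    0 < (-1) ^ i * P.ht x ((P.L ^ (P.n + 1 - 2 * i)) x)

/-- Q1 for a variety of even dimension `2 k` in the middle degree: `L` is an isomorphism from `Ch^k(X_K)^0` to
`Ch^(k + 1)(X_K)^0`. -/
def MiddleLefschetz : Prop := ∀ k, P.n = 2 * k → Set.BijOn (fun x => P.L x) (P.G k) (P.G (k + 1))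

/-- Q2 for a variety of odd dimension `2 k - 1` in the middle degree: `(-1)^k (x, x) > 0` if `x ≠ 0` and `L x = 0`. -/
def MiddleIndex : Prop := ∀ k x, P.n + 1 = 2 * k → x ∈ P.G k → x ≠ 0 → P.L x = 0 → 0 < (-1) ^ k * P.ht x x

end Pol

section

variable {M M' : Type} [AddCommGroup M] [Module ℚ M] [AddCommGroup M'] [Module ℚ M']

/-- Every element of `M'` is uniquely determined by the coordinates `coef t`, `t ≤ m`, with values in `M`, which are
arbitrary. -/
structure IsCoordinates (m : ℕ) (coef : ℕ → M' →ₗ[ℚ] M) : Prop where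
  eq_zero : ∀ t y, m < t → coef t y = 0
  ext : ∀ y, (∀ t, coef t y = 0) → y = 0
  surj : ∀ x : ℕ → M, (∀ t, m < t → x t = 0) → ∃ y, ∀ t, coef t y = x t

/-- The elements of degree `k` of `M'` are those with coordinates `coef t` of degree `k - s - t`. -/
def HasDegrees (s : ℕ) (G : ℕ → Submodule ℚ M) (G' : ℕ → Submodule ℚ M') (coef : ℕ → M' →ₗ[ℚ] M) : Prop :=
  ∀ k y, y ∈ G' k ↔ ∀ t, (s + t ≤ k → coef t y ∈ G (k - (s + t))) ∧ (k < s + t → coef t y = 0)

/-- The coordinate `t - 1`, or zero if `t = 0`. -/
def prev (coef : ℕ → M' →ₗ[ℚ] M) (y : M') : ℕ → M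
  | 0 => 0
  | t + 1 => coef t y

end

/-- `P'` is the product of `P` with the projective space of dimension `m`, with the polarisation `L ⊠ O(1)`; with the class `h`
of a hyperplane, `coef t y` is the coefficient of `h^t` in `y`. -/
structure ProductWithSpace (P P' : Pol) (m : ℕ) where
  coef : ℕ → P'.M →ₗ[ℚ] P.M
  dim : P'.n = P.n + m
  coordinates : IsCoordinates m coef
  degrees : HasDegrees 0 P.G P'.G coef
  L : ∀ t y, t ≤ m → coef t (P'.L y) = P.L (coef t y) + prev coef y t
  ht : ∀ y z, P'.ht y z = ∑ t ∈ Finset.range (m + 1), P.ht (coef t y) (coef (m - t) z)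

/-- Vector bundles on the regular arithmetic variety `X`: the Grothendieck ring `K` of vector bundles with the dual, the rank and
the determinant, the set `vb` of the classes of the vector bundles, the class `h` of the ample line bundle, the virtual tangent
bundle `tan` of `X` over `ℤ`, the Chow ring `A` of `X_K` acting on the homologically trivial cycles, the total Chern class `c`,
and the first Chern class `c₁` of line bundles. `generated E R` says that `E` is the class of a vector bundle generated by `R`
global sections. `ambient τ p B` says that there is a closed embedding of `X` in a smooth projective scheme `V` over `ℤ`, with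
generic fibre rational over `ℚ` and without homologically trivial cycles on it, such that `τ` is the restriction to `X` of the
relative tangent bundle of `V`, `p` is the restriction of an ample line bundle on `V`, and `B` is the set of the classes of the
restrictions of the vector bundles on `V`. -/
structure Bundles (P : Pol) where
  A : Type
  ringA : CommRing A
  algA : Algebra ℚ A
  modA : Module A P.M
  K : Type
  ringK : CommRing K
  dual : K →+* K
  rank : K →+* ℤ
  det : K → Kˣ
  vb : Set K
  h : Kˣ
  tan : K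
  c : K → PowerSeries A
  c₁ : Kˣ → A
  generated : K → ℕ → Prop
  ambient : K → Kˣ → Subsemiring K → Prop

attribute [instance] Bundles.ringA Bundles.algA Bundles.modA Bundles.ringK

namespace Bundles

variable {P : Pol} (b : Bundles P)

/-- the class of the power of the ample line bundle -/
def twist (j : ℤ) : b.K := ((b.h ^ j : b.Kˣ) : b.K)

/-- The action of the Chow ring: the first Chern class of `h` acts as the Lefschetz operator. -/
structure IsAction : Prop where
  smul_rat : ∀ (r : ℚ) (x : P.M), algebraMap ℚ b.A r • x = r • x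
  c₁_h : ∀ x : P.M, b.c₁ b.h • x = P.L x

/-- The Chern classes: Whitney formula, and the Chern classes of the powers of `h`. -/
structure IsChern : Prop where
  c_add : ∀ u v, b.c (u + v) = b.c u * b.c v
  c_twist : ∀ j, b.c (b.twist j) = 1 + PowerSeries.C (b.c₁ (b.h ^ j)) * PowerSeries.X
  c₁_mul : ∀ p q, b.c₁ (p * q) = b.c₁ p + b.c₁ q

/-- The dual, the rank and the determinant of a vector bundle, and the theorem of Serre: for `k ≥ k₀` the twist of a vector
bundle by `h^k` is generated by finitely many sections. -/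
structure IsVector : Prop where
  dual_h : b.dual (b.twist 1) = b.twist (-1)
  dual_vb : ∀ u ∈ b.vb, b.dual u ∈ b.vb
  rank_h : b.rank (b.twist 1) = 1
  rank_dual : ∀ u, b.rank (b.dual u) = b.rank u
  rank_vb : ∀ u ∈ b.vb, 0 ≤ b.rank u
  det_dual : ∀ u, b.det (b.dual u) = (b.det u)⁻¹
  det_twist : ∀ u j, b.det (u * b.twist j) = b.det u * b.h ^ (j * b.rank u)
  serre : ∀ u ∈ b.vb, ∃ k₀ : ℕ, ∀ k ≥ k₀, ∃ R₀ : ℕ, ∀ R ≥ R₀, b.generated (u * b.twist k) R

/-- The embeddings of `X`, as a scheme over `ℤ`: in a projective space of dimension `N`, by the power `h^d`; in the product of a given `V` and of the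
Grassmannian of the quotients of the trivial bundle of rank `R`, by the quotient `E` of the trivial bundle on `X`; and in the
projective bundle of `O ⊕ F` over a given `V`, `F` a vector bundle on `V`, by the section given by `O`. The normal bundle of an
embedding is a vector bundle. -/
structure HasEmbeddings : Prop where
  space : ∃ N d : ℕ, 0 < d ∧ ∃ B, b.ambient ((N + 1) * b.twist d - 1) (b.h ^ d) B ∧ ∀ j : ℤ, b.twist (d * j) ∈ B
  grassmannian : ∀ τ p B E R, b.ambient τ p B → b.generated E R →
    ∃ B', B ≤ B' ∧ E ∈ B' ∧ (R - E) ∈ B' ∧ b.ambient (τ + b.dual (R - E) * E) (p * b.det E) B'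
  projective : ∀ τ p B F, b.ambient τ p B → F ∈ B → ∃ a : ℕ, 0 < a ∧ ∃ B', b.ambient (τ + F) (p ^ a) B'
  dual_mem : ∀ τ p B u, b.ambient τ p B → u ∈ B → b.dual u ∈ B
  normal : ∀ τ p B, b.ambient τ p B → τ - b.tan ∈ b.vb

/-- `P'` is the blow-up of `V` in `X`, with the ample line bundle `p^a` twisted by the exceptional divisor, where `N` is the
normal bundle, of rank `m + 2`, and `p` the restriction of an ample line bundle on `V` to `X`: every homologically trivial cycle
on the blow-up is uniquely the sum of the direct images of the cycles `ζ^t coef t y`, `t ≤ m`, on the exceptional divisor, where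
`ζ` is the class of the tautological bundle `O(1)`, which satisfies `ζ^(m + 1) + c_1(N) ζ^m + ... + c_(m + 1)(N) = 0` on these
cycles. -/
structure BlowUp (N : b.K) (p : b.Kˣ) (a m : ℕ) (P' : Pol) where
  coef : ℕ → P'.M →ₗ[ℚ] P.M
  dim : P'.n = P.n + m + 2
  coordinates : IsCoordinates m coef
  degrees : HasDegrees 1 P.G P'.G coef
  L : ∀ t y, t ≤ m → coef t (P'.L y) =
    a • b.c₁ p • coef t y + prev coef y t - PowerSeries.coeff (m + 1 - t) (b.c N) • coef m y
  ht : ∀ y z, (∀ t, 0 < t → coef t y = 0) → P'.ht y z = - P.ht (coef 0 y) (coef m z)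

end Bundles

/-- The class `C` of all regular arithmetic varieties over the rings of integers of all number fields with an ample hermitian
line bundle, and the class `Rat` of those over `ℤ` whose generic fibre is rational over `ℚ`. -/
structure IsGeometry (C Rat : Set Pol) : Prop where
  module : ∀ P ∈ C, P.IsLefschetzModule
  subset : Rat ⊆ C
  product : ∀ P ∈ Rat, ∀ m, ∃ P' ∈ Rat, Nonempty (ProductWithSpace P P' m)
  blowUp : ∀ P ∈ C, ∃ b : Bundles P, b.IsAction ∧ b.IsChern ∧ b.IsVector ∧ b.HasEmbeddings ∧
    ∀ (τ : b.K) (p : b.Kˣ) (B : Subsemiring b.K) (m : ℕ), b.ambient τ p B → b.rank (τ - b.tan) = m + 2 →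
      ∃ a₀ : ℕ, ∀ a ≥ a₀, ∃ P' ∈ Rat, Nonempty (b.BlowUp (τ - b.tan) p a m P')

end Pool.Agent.T6.H33.BL
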